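import Mathlib

namespace Pool.Agent.H65.Wiener

open Finset

variable {V : Type*} {G : SimpleGraph V}

/-- a geodesic between two vertices, as a function on `ℕ` -/
theorem geo_exists (hG : G.Connected) (u w : V) : ∃ p : ℕ → V, p 0 = u ∧ p (G.dist u w) = w ∧
    ∀ i j, i ≤ j → j ≤ G.dist u w → G.dist (p i) (p j) = j - i := by
  obtain ⟨q, hq⟩ := hG.exists_walk_length_eq_dist u w
  refine ⟨q.getVert, q.getVert_zero, by rw [← hq]; exact q.getVert_length, ?_⟩
  have hle : ∀ i k, i + k ≤ G.dist u w → G.dist (q.getVert i) (q.getVert (i + k)) ≤ k := by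
    intro i k
    induction k with
    | zero => intro _; simp
    | succ k ih =>
      intro h
      have h1 := ih (by omega)
      have h2 : G.Adj (q.getVert (i + k)) (q.getVert (i + k + 1)) :=
        q.adj_getVert_succ (by omega)
      have h3 : G.dist (q.getVert (i + k)) (q.getVert (i + k + 1)) = 1 :=
        SimpleGraph.dist_eq_one_iff_adj.2 h2
      have h4 := hG.dist_triangle (u := q.getVert i) (v := q.getVert (i + k))
        (w := q.getVert (i + k + 1))
      have h5 : i + (k + 1) = i + k + 1 := by ring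
      rw [h5]
      omega
  intro i j hij hj
  have h1 := hle i (j - i) (by omega)
  have h2 := hle 0 i (by omega)
  have h3 := hle j (G.dist u w - j) (by omega)
  have e1 : i + (j - i) = j := by omega
  have e2 : j + (G.dist u w - j) = G.dist u w := by omega
  rw [e1] at h1
  rw [zero_add, q.getVert_zero] at h2
  rw [e2] at h3
  have e3 : q.getVert (G.dist u w) = w := by rw [← hq]; exact q.getVert_length
  rw [e3] at h3
  have h4 := hG.dist_triangle (u := u) (v := q.getVert i) (w := w)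
  have h5 := hG.dist_triangle (u := q.getVert i) (v := q.getVert j) (w := w)
  omega

/-- `x` is one of `v 0, …, v d` -/
def OnP (v : ℕ → V) (d : ℕ) (x : V) : Prop := ∃ i, i ≤ d ∧ v i = x

/-- `v 0, …, v d` is a geodesic -/
def Geo (G : SimpleGraph V) (v : ℕ → V) (d : ℕ) : Prop :=
  ∀ i j, i ≤ j → j ≤ d → G.dist (v i) (v j) = j - i

theorem Geo.dist_eq {v : ℕ → V} {d : ℕ} (hv : Geo G v d) {i j : ℕ} (hi : i ≤ d) (hj : j ≤ d) :
    (G.dist (v i) (v j) : ℤ) = |(i : ℤ) - j| := by
  rcases le_total i j with h | h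
  · rw [hv i j h hj, abs_of_nonpos (by omega)]; omega
  · rw [G.dist_comm, hv j i h hi, abs_of_nonneg (by omega)]; omega

theorem chain (hG : G.Connected) {v : ℕ → V} {d : ℕ} (x w : V) (hw : OnP v d w) :
    ∃ (a : ℕ → V) (i0 k : ℕ), k ≤ d ∧ a 0 = x ∧ a i0 = v k ∧
      (∀ i j, i ≤ j → j ≤ i0 → G.dist (a i) (a j) = j - i) ∧
      (∀ i, i < i0 → ¬ OnP v d (a i)) ∧ i0 + G.dist (v k) w = G.dist x w := by
  classical
  obtain ⟨p, hp0, hpL, hp⟩ := geo_exists hG x w
  have hex : ∃ i, OnP v d (p i) := ⟨G.dist x w, by rw [hpL]; exact hw⟩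
  have h1 : Nat.find hex ≤ G.dist x w := Nat.find_le (by rw [hpL]; exact hw)
  obtain ⟨k, hk, hvk⟩ := Nat.find_spec hex
  refine ⟨p, Nat.find hex, k, hk, hp0, hvk.symm, ?_, ?_, ?_⟩
  · intro i j hij hj
    exact hp i j hij (by omega)
  · intro i hi
    exact Nat.find_min hex hi
  · have h2 := hp (Nat.find hex) (G.dist x w) h1 le_rfl
    rw [hpL, ← hvk] at h2
    omega

/-- distance to the centre of the geodesic -/
noncomputable def cdist (G : SimpleGraph V) (v : ℕ → V) (d : ℕ) (x : V) : ℕ :=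
  min (G.dist x (v (d / 2))) (G.dist x (v (d - d / 2)))

theorem cdist_path {v : ℕ → V} {d : ℕ} (hv : Geo G v d) {i : ℕ} (hi : i ≤ d) :
    cdist G v d (v i) + min i (d - i) = d / 2 := by
  unfold cdist
  have h1 : G.dist (v i) (v (d / 2)) = (i - d / 2) + (d / 2 - i) := by
    rcases le_total i (d / 2) with h | h
    · rw [hv i _ h (by omega)]; omega
    · rw [G.dist_comm, hv _ i h (by omega)]; omega
  have h2 : G.dist (v i) (v (d - d / 2)) = (i - (d - d / 2)) + ((d - d / 2) - i) := by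
    rcases le_total i (d - d / 2) with h | h
    · rw [hv i _ h (by omega)]; omega
    · rw [G.dist_comm, hv _ i h (by omega)]; omega
  rw [h1, h2]
  omega

theorem exists_parent (hG : G.Connected) (v : ℕ → V) (d : ℕ) :
    ∃ π : V → V, ∀ x, 0 < cdist G v d x → G.dist x (π x) ≤ 1 ∧
      cdist G v d (π x) + 1 = cdist G v d x := by
  classical
  have h : ∀ x, ∃ y, 0 < cdist G v d x → G.dist x y ≤ 1 ∧
      cdist G v d y + 1 = cdist G v d x := by
    intro x
    by_cases hx : 0 < cdist G v d x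
    · -- the closest centre
      obtain ⟨c, hc, hcx⟩ : ∃ c, (c = v (d / 2) ∨ c = v (d - d / 2)) ∧
          cdist G v d x = G.dist x c := by
        unfold cdist
        rcases le_total (G.dist x (v (d / 2))) (G.dist x (v (d - d / 2))) with h | h
        · exact ⟨_, Or.inl rfl, min_eq_left h⟩
        · exact ⟨_, Or.inr rfl, min_eq_right h⟩
      obtain ⟨p, hp0, hpL, hp⟩ := geo_exists hG x c
      refine ⟨p 1, fun _ => ?_⟩
      rw [hcx] at hx
      have h1 := hp 0 1 (by omega) (by omega)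
      have h2 := hp 1 _ (show 1 ≤ G.dist x c by omega) le_rfl
      rw [hp0] at h1
      rw [hpL] at h2
      refine ⟨by omega, ?_⟩
      have h3 : cdist G v d (p 1) ≤ G.dist (p 1) c := by
        unfold cdist
        rcases hc with rfl | rfl
        · exact min_le_left _ _
        · exact min_le_right _ _
      have h4 : cdist G v d x ≤ cdist G v d (p 1) + 1 := by
        have t1 := hG.dist_triangle (u := x) (v := p 1) (w := v (d / 2))
        have t2 := hG.dist_triangle (u := x) (v := p 1) (w := v (d - d / 2))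
        unfold cdist
        omega
      omega
    · exact ⟨x, fun h => absurd h hx⟩
  choose π hπ using h
  exact ⟨π, hπ⟩

theorem cdist_zero_onP {v : ℕ → V} (hG : G.Connected) {d : ℕ} {x : V}
    (hx : cdist G v d x = 0) : OnP v d x := by
  unfold cdist at hx
  rcases Nat.min_eq_zero_iff.1 hx with h | h
  · exact ⟨d / 2, by omega, (hG.dist_eq_zero_iff.1 h).symm⟩
  · exact ⟨d - d / 2, by omega, (hG.dist_eq_zero_iff.1 h).symm⟩

theorem exists_data (hG : G.Connected) {v : ℕ → V} {d : ℕ} (hv : Geo G v d)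
    (hf : ∀ x, cdist G v d x ≤ d / 2) :
    ∃ (ρ : V → V) (r c : V → ℕ), ∀ x, ¬ OnP v d x →
      (1 ≤ r x ∧ c (ρ x) ≤ d ∧ r x ≤ min (c (ρ x)) (d - c (ρ x)) ∧
        G.dist x (v (c (ρ x))) ≤ r x ∧ G.dist x (ρ x) + 1 ≤ r x ∧
        ∀ s, 1 ≤ s → s ≤ r x → ∃ a, ¬ OnP v d a ∧ ρ a = ρ x ∧ r a = s ∧ G.dist x a ≤ r x - s) := by
  classical
  obtain ⟨π, hπ⟩ := exists_parent hG v d
  -- iterates
  have hit : ∀ x i, i ≤ cdist G v d x → cdist G v d (π^[i] x) + i = cdist G v d x ∧
      G.dist x (π^[i] x) ≤ i := by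
    intro x i
    induction i with
    | zero => intro _; simp
    | succ i ih =>
      intro h
      obtain ⟨h1, h2⟩ := ih (by omega)
      obtain ⟨h3, h4⟩ := hπ (π^[i] x) (by omega)
      rw [Function.iterate_succ_apply']
      have h5 := hG.dist_triangle (u := x) (v := π^[i] x) (w := π (π^[i] x))
      omega
  have hex : ∀ x, ∃ i, OnP v d (π^[i] x) := by
    intro x
    refine ⟨cdist G v d x, cdist_zero_onP hG ?_⟩
    have := (hit x _ le_rfl).1
    omega
  have hfind_le : ∀ x, Nat.find (hex x) ≤ cdist G v d x := by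
    intro x
    apply Nat.find_le
    apply cdist_zero_onP hG
    have := (hit x _ le_rfl).1
    omega
  obtain ⟨c, hc⟩ : ∃ c : V → ℕ, ∀ z, OnP v d (π z) → c z ≤ d ∧ v (c z) = π z := by
    have : ∀ z, ∃ i, OnP v d (π z) → i ≤ d ∧ v i = π z := by
      intro z
      by_cases h : OnP v d (π z)
      · obtain ⟨i, h1, h2⟩ := h
        exact ⟨i, fun _ => ⟨h1, h2⟩⟩
      · exact ⟨0, fun h' => absurd h' h⟩
    choose c hc using this
    exact ⟨c, hc⟩
  refine ⟨fun x => π^[Nat.find (hex x) - 1] x, fun x => Nat.find (hex x), c, ?_⟩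
  intro x hx
  have hr1 : 1 ≤ Nat.find (hex x) := by
    by_contra h
    have h0 : Nat.find (hex x) = 0 := by omega
    have h1 := Nat.find_spec (hex x)
    rw [h0] at h1
    exact hx h1
  obtain ⟨R, hR⟩ : ∃ R, R = Nat.find (hex x) := ⟨_, rfl⟩
  have hRf : R ≤ cdist G v d x := by rw [hR]; exact hfind_le x
  have hRspec : OnP v d (π^[R] x) := by rw [hR]; exact Nat.find_spec (hex x)
  have hRmin : ∀ i, i < R → ¬ OnP v d (π^[i] x) := by
    intro i hi; rw [hR] at hi; exact Nat.find_min (hex x) hi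
  rw [← hR] at hr1
  have hπρ : π (π^[R - 1] x) = π^[R] x := by
    rw [← Function.iterate_succ_apply' π (R - 1) x]
    congr 2; omega
  have hcρ := hc (π^[R - 1] x) (by rw [hπρ]; exact hRspec)
  rw [hπρ] at hcρ
  obtain ⟨q, hq⟩ : ∃ q, q = c (π^[R - 1] x) := ⟨_, rfl⟩
  rw [← hq] at hcρ
  have hdown : ∀ s, 1 ≤ s → s ≤ R → Nat.find (hex (π^[R - s] x)) = s := by
    intro s h1 h2
    rw [Nat.find_eq_iff]
    constructor
    · rw [← Function.iterate_add_apply]
      have : s + (R - s) = R := by omega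
      rw [this]; exact hRspec
    · intro i hi
      rw [← Function.iterate_add_apply]
      exact hRmin _ (by omega)
  show 1 ≤ Nat.find (hex x) ∧ c (π^[Nat.find (hex x) - 1] x) ≤ d ∧ _ ∧ _ ∧ _ ∧ _
  beta_reduce
  rw [← hR, ← hq]
  refine ⟨hr1, hcρ.1, ?_, ?_, ?_, ?_⟩
  · have h1 := (hit x R hRf).1
    have h2 := cdist_path hv hcρ.1
    rw [hcρ.2] at h2
    have h3 := hf x
    omega
  · rw [hcρ.2]
    exact (hit x R hRf).2
  · have := (hit x (R - 1) (by omega)).2
    omega
  · intro s h1 h2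
    refine ⟨π^[R - s] x, hRmin _ (by omega), ?_, hdown s h1 h2, ?_⟩
    · rw [hdown s h1 h2, ← Function.iterate_add_apply]
      congr 2; omega
    · exact (hit x (R - s) (by omega)).2

/-- The configuration forced by a vertex that is far from the centre. -/
structure Bad (G : SimpleGraph V) (v : ℕ → V) (d : ℕ) (a b : ℕ → V) (i0 j0 k l t : ℕ) : Prop where
  hkd : k ≤ d / 2
  hld : d - d / 2 ≤ l
  hl : l ≤ d
  hik : i0 + k ≤ d
  hjl : j0 + (d - l) ≤ d
  hi0 : k + 1 ≤ i0
  hj0 : d - l + 1 ≤ j0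
  h00 : a 0 = b 0
  ha : a i0 = v k
  hb : b j0 = v l
  hga : ∀ i j, i ≤ j → j ≤ i0 → G.dist (a i) (a j) = j - i
  hgb : ∀ i j, i ≤ j → j ≤ j0 → G.dist (b i) (b j) = j - i
  hna : ∀ i, i < i0 → ¬ OnP v d (a i)
  hnb : ∀ i, i < j0 → ¬ OnP v d (b i)
  hti : t < i0
  htj : t < j0
  hab : a t = b t
  hmax : ∀ s, t < s → s < i0 → s < j0 → a s ≠ b s
  hkl : (l - k) + 2 * t ≤ i0 + j0

theorem arith1 {d h X Y i0 k : ℕ} (hh : h = d / 2) (hX : h < X) (hY : h < Y)
    (h1 : X ≤ i0 + (k - h + (h - k))) (h2 : Y ≤ i0 + (k - (d - h) + (d - h - k)))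
    (h3 : i0 + k ≤ d) : k + 1 ≤ i0 ∧ k ≤ h := by
  omega

theorem arith2 {d h X Y j0 l : ℕ} (hh : h = d / 2) (hX : h < X) (hY : h < Y) (hl : l ≤ d)
    (h1 : X ≤ j0 + (l - h + (h - l))) (h2 : Y ≤ j0 + (l - (d - h) + (d - h - l)))
    (h3 : j0 + (d - l) ≤ d) : d - l + 1 ≤ j0 ∧ d - h ≤ l := by
  omega

theorem bad_of_far (hG : G.Connected) {v : ℕ → V} {d : ℕ} (hv : Geo G v d)
    (hdiam : ∀ x y, G.dist x y ≤ d) (x : V) (hx : d / 2 < cdist G v d x) :
    ∃ a b i0 j0 k l t, Bad G v d a b i0 j0 k l t := by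
  classical
  obtain ⟨a, i0, k, hk, ha0, hak, hga, hna, hadist⟩ := chain hG x (v 0) (v := v) (d := d)
    ⟨0, by omega, rfl⟩
  obtain ⟨b, j0, l, hl, hb0, hbl, hgb, hnb, hbdist⟩ := chain hG x (v d) (v := v) (d := d)
    ⟨d, le_rfl, rfl⟩
  have hvk : G.dist (v k) (v 0) = k := by rw [G.dist_comm, hv 0 k (by omega) hk]; omega
  have hvl : G.dist (v l) (v d) = d - l := hv l d hl le_rfl
  have hxk : G.dist x (v k) = i0 := by
    rw [← ha0, ← hak, hga 0 i0 (by omega) le_rfl]; omega
  have hxl : G.dist x (v l) = j0 := by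
    rw [← hb0, ← hbl, hgb 0 j0 (by omega) le_rfl]; omega
  have hd0 := hdiam x (v 0)
  have hdd := hdiam x (v d)
  unfold cdist at hx
  have dd : ∀ i j, i ≤ d → j ≤ d → G.dist (v i) (v j) = (i - j) + (j - i) := by
    intro i j hi hj
    rcases le_total i j with h | h
    · rw [hv i _ h hj]; omega
    · rw [G.dist_comm, hv _ i h hi]; omega
  have t1 := hG.dist_triangle (u := x) (v := v k) (w := v (d / 2))
  have t2 := hG.dist_triangle (u := x) (v := v k) (w := v (d - d / 2))
  have t3 := hG.dist_triangle (u := x) (v := v l) (w := v (d / 2))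
  have t4 := hG.dist_triangle (u := x) (v := v l) (w := v (d - d / 2))
  rw [dd k (d / 2) hk (by omega)] at t1
  rw [dd k (d - d / 2) hk (by omega)] at t2
  rw [dd l (d / 2) hl (by omega)] at t3
  rw [dd l (d - d / 2) hl (by omega)] at t4
  have hx1 : d / 2 < G.dist x (v (d / 2)) := lt_of_lt_of_le hx (min_le_left _ _)
  have hx2 : d / 2 < G.dist x (v (d - d / 2)) := lt_of_lt_of_le hx (min_le_right _ _)
  rw [hxk] at t1 t2
  rw [hxl] at t3 t4
  obtain ⟨q1, q2⟩ := arith1 (h := d / 2) rfl hx1 hx2 t1 t2 (by omega)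
  obtain ⟨q3, q4⟩ := arith2 (h := d / 2) rfl hx1 hx2 hl t3 t4 (by omega)
  have hik : i0 + k ≤ d := by omega
  have hjl : j0 + (d - l) ≤ d := by omega
  clear t1 t2 t3 t4 hx1 hx2 hx hxk hxl hadist hbdist hvk hvl hd0 hdd
  have hi1 : 1 ≤ i0 := by omega
  have hj1 : 1 ≤ j0 := by omega
  -- maximal common index
  obtain ⟨t, ht, htmax⟩ : ∃ t, (t < i0 ∧ t < j0 ∧ a t = b t) ∧
      ∀ s, t < s → s < i0 → s < j0 → a s ≠ b s := by
    have hne : ((Finset.range i0).filter (fun s => s < j0 ∧ a s = b s)).Nonempty :=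
      ⟨0, by rw [Finset.mem_filter, Finset.mem_range]; exact ⟨hi1, hj1, by rw [ha0, hb0]⟩⟩
    obtain ⟨t, ht, hm⟩ := Finset.exists_max_image _ (fun s => s) hne
    rw [Finset.mem_filter, Finset.mem_range] at ht
    refine ⟨t, ⟨ht.1, ht.2.1, ht.2.2⟩, ?_⟩
    intro s hs h1 h2 h3
    have := hm s (by rw [Finset.mem_filter, Finset.mem_range]; exact ⟨h1, h2, h3⟩)
    omega
  have u1 := hga t i0 ht.1.le le_rfl
  have u2 := hgb t j0 ht.2.1.le le_rfl
  have u3 := hG.dist_triangle (u := v k) (v := a t) (w := v l)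
  rw [hak] at u1
  rw [hbl] at u2
  rw [G.dist_comm (u := v k) (v := a t), u1, ht.2.2, u2, dd k l hk hl] at u3
  have hti := ht.1
  have htj := ht.2.1
  refine ⟨a, b, i0, j0, k, l, t, ?_⟩
  constructor
  · exact q2
  · exact q4
  · exact hl
  · exact hik
  · exact hjl
  · exact q1
  · exact q3
  · rw [ha0, hb0]
  · exact hak
  · exact hbl
  · exact hga
  · exact hgb
  · exact hna
  · exact hnb
  · exact hti
  · exact htj
  · exact ht.2.2
  · exact htmax
  · omega

/-- the enumeration of the vertices on the two chains -/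
def Bad.enum (a b : ℕ → V) (i0 t : ℕ) (s : ℕ) : V := if s < i0 then a s else b (s - i0 + t + 1)

theorem Bad.inj {v : ℕ → V} {d : ℕ} {a b : ℕ → V} {i0 j0 k l t : ℕ}
    (h : Bad G v d a b i0 j0 k l t) :
    Set.InjOn (Bad.enum a b i0 t) (Finset.range (i0 + (j0 - 1 - t)) : Set ℕ) := by
  have hti := h.hti
  have htj := h.htj
  have key : ∀ s q, s < i0 → t < q → q < j0 → a s ≠ b q := by
    intro s q hs hq1 hq2 he
    have h1 := h.hga 0 s (by omega) hs.le
    have h2 := h.hgb 0 q (by omega) hq2.le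
    rw [he, h.h00, h2] at h1
    have : s = q := by omega
    subst this
    exact h.hmax s hq1 hs hq2 he
  intro s hs s' hs' he
  rw [Finset.mem_coe, Finset.mem_range] at hs hs'
  unfold Bad.enum at he
  split_ifs at he with h1 h2 h2
  · rcases le_total s s' with h3 | h3
    · have := h.hga s s' h3 h2.le
      rw [he, SimpleGraph.dist_self] at this
      omega
    · have := h.hga s' s h3 h1.le
      rw [he, SimpleGraph.dist_self] at this
      omega
  · exact absurd he (key _ _ h1 (by omega) (by omega))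
  · exact absurd he.symm (key _ _ h2 (by omega) (by omega))
  · rcases le_total s s' with h3 | h3
    · have := h.hgb (s - i0 + t + 1) (s' - i0 + t + 1) (by omega) (by omega)
      rw [he, SimpleGraph.dist_self] at this
      omega
    · have := h.hgb (s' - i0 + t + 1) (s - i0 + t + 1) (by omega) (by omega)
      rw [he, SimpleGraph.dist_self] at this
      omega

theorem Bad.notOnP {v : ℕ → V} {d : ℕ} {a b : ℕ → V} {i0 j0 k l t : ℕ}
    (h : Bad G v d a b i0 j0 k l t) {s : ℕ} (hs : s < i0 + (j0 - 1 - t)) :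
    ¬ OnP v d (Bad.enum a b i0 t s) := by
  have hti := h.hti
  have htj := h.htj
  unfold Bad.enum
  split_ifs with h1
  · exact h.hna s h1
  · exact h.hnb _ (by omega)

end Pool.Agent.H65.Wiener
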