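import Mathlib

namespace Pool.Agent.H65.Wiener

/-- Twice the minimal deficiency of a class with `μ` elements attached at level `c`. -/
def twoK (c μ : ℤ) : ℤ := if μ ≤ c then μ * (2 * c - μ - 1) else c * (c - 1)

/-- The allowed excess for a side with `y` out of `m` extra vertices. -/
def phi (m y : ℤ) : ℤ := if m ≤ 2 * y then (m / 2) * ((m + 1) / 2) - y * (m - y) else 0

/-- The small additional saving. -/
def sav (c μ : ℤ) : ℤ := if 3 ≤ c ∧ 2 ≤ μ then 4 * (μ - 2) else 0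

/-- The least `M = d - 2` possible for a given `m`. -/
def M0 (m : ℤ) : ℤ := 2 * ((m + 6) / 4) * ((m + 6) / 4) - 1

def ineqN (M m c μ l : ℤ) : Prop :=
  2 * μ * (c * c + 2 * (c - 1) * (l + μ) - c * μ) + 2 * M * phi m l
    ≤ (M + 2 + m) * twoK c μ + sav c μ + 2 * M * phi m (l + μ)

instance (M m c μ l : ℤ) : Decidable (ineqN M m c μ l) := by
  unfold ineqN; infer_instance

/-- finite check for `μ > c`, `m ≤ 12` -/
def checkA : Bool :=
  (List.range 13).all fun m => (List.range (m + 1)).all fun y => (List.range (y + 1)).all fun μ =>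
    (List.range μ).all fun c => decide (2 ≤ c → ineqN (M0 m) m c μ ((y : ℤ) - μ))

theorem checkA_true : checkA = true := by decide +kernel

/-- finite check for `μ ≤ c`, `6 ≤ m ≤ 13` -/
def checkB : Bool :=
  (List.range 14).all fun m => (List.range (m + 1)).all fun y => (List.range (y + 1)).all fun μ =>
    decide (6 ≤ m → 1 ≤ μ → (0 : ℤ) ≤ (μ : ℤ) * ((μ : ℤ) - 1) * (M0 m + 2 + m - 4 * y)
      + 2 * M0 m * (phi m y - phi m ((y : ℤ) - μ)))

theorem checkB_true : checkB = true := by decide +kernel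

/-- finite check for `μ ≤ c`, `m ≤ 5`, `c ≤ 7` -/
def checkC : Bool :=
  (List.range 6).all fun m => (List.range (m + 1)).all fun y => (List.range (y + 1)).all fun μ =>
    (List.range 8).all fun c =>
    decide (2 ≤ c → 1 ≤ μ → μ ≤ c → ineqN (max (M0 m) (2 * c - 2)) m c μ ((y : ℤ) - μ))

theorem checkC_true : checkC = true := by decide +kernel

theorem phi_of_lt {m y : ℤ} (h : 2 * y < m) : phi m y = 0 := by
  unfold phi; rw [if_neg (by omega)]

theorem phi_of_le {m y : ℤ} (h : m ≤ 2 * y) : 4 * phi m y = (2 * y - m) ^ 2 - m % 2 := by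
  unfold phi
  rw [if_pos h]
  rcases Int.emod_two_eq_zero_or_one m with hm | hm
  · obtain ⟨a, ha⟩ : ∃ a, m = 2 * a := ⟨m / 2, by omega⟩
    have h1 : m / 2 = a := by omega
    have h2 : (m + 1) / 2 = a := by omega
    rw [h1, h2, hm, ha]; ring
  · obtain ⟨a, ha⟩ : ∃ a, m = 2 * a + 1 := ⟨m / 2, by omega⟩
    have h1 : m / 2 = a := by omega
    have h2 : (m + 1) / 2 = a + 1 := by omega
    rw [h1, h2, hm, ha]; ring

theorem phi_nonneg (m y : ℤ) : 0 ≤ phi m y := by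
  by_cases h : m ≤ 2 * y
  · have h1 := phi_of_le h
    rcases Int.emod_two_eq_zero_or_one m with hm | hm
    · rw [hm] at h1; nlinarith [sq_nonneg (2 * y - m)]
    · rw [hm] at h1
      have : 1 ≤ 2 * y - m := by omega
      nlinarith
  · rw [phi_of_lt (by omega)]

theorem phi_mono {m y y' : ℤ} (h : y ≤ y') : phi m y ≤ phi m y' := by
  by_cases h1 : m ≤ 2 * y
  · have h2 := phi_of_le h1
    have h3 := phi_of_le (show m ≤ 2 * y' by omega)
    nlinarith [mul_self_nonneg (y' - y)]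
  · rw [phi_of_lt (by omega)]
    exact phi_nonneg _ _

theorem twoK_nonneg {c μ : ℤ} (hc : 1 ≤ c) (hμ : 0 ≤ μ) : 0 ≤ twoK c μ := by
  unfold twoK
  split_ifs with h
  · rcases eq_or_lt_of_le hμ with h0 | h0
    · rw [← h0]; simp
    · exact mul_nonneg hμ (by omega)
  · exact mul_nonneg (by omega) (by omega)

theorem sav_nonneg (c μ : ℤ) : 0 ≤ sav c μ := by
  unfold sav
  split_ifs with h
  · omega
  · exact le_refl _

theorem ineqN_mono {M M' m c μ l : ℤ} (hc : 1 ≤ c) (hμ : 0 ≤ μ) (hM : M ≤ M')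
    (h : ineqN M m c μ l) : ineqN M' m c μ l := by
  unfold ineqN at *
  have h1 := twoK_nonneg hc hμ
  have h2 : phi m l ≤ phi m (l + μ) := phi_mono (by omega)
  nlinarith [mul_nonneg (sub_nonneg.2 hM) h1, mul_nonneg (sub_nonneg.2 hM) (sub_nonneg.2 h2)]

theorem M0_le {M m j : ℤ} (hm : 0 ≤ m) (h1 : m + 3 ≤ 4 * j) (h2 : 2 * j * j ≤ M + 1) :
    M0 m ≤ M := by
  unfold M0
  have h3 : (m + 6) / 4 ≤ j := by omega
  have h4 : 0 ≤ (m + 6) / 4 := by omega
  nlinarith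

theorem polyP {m w : ℤ} (hm : 13 ≤ m) (hw : 2 ≤ w) (hwm : w ≤ m) :
    8 * (m + w) ^ 4 ≤ (m ^ 2 + 4 * m + 9 - 10 * w) *
      (8 * (m + w) ^ 2 + (m ^ 2 + 6 * m + 1) * (w ^ 2 - 1)) := by
  by_cases h : w ≤ 12
  · obtain ⟨t, rfl⟩ : ∃ t, m = 13 + t := ⟨m - 13, by ring⟩
    have ht : 0 ≤ t := by omega
    have ht2 : 0 ≤ t ^ 2 := by positivity
    have ht3 : 0 ≤ t ^ 3 := by positivity
    have ht4 : 0 ≤ t ^ 4 := by positivity
    interval_cases w <;> nlinarith
  · obtain ⟨s, rfl⟩ : ∃ s, w = 12 + s := ⟨w - 12, by ring⟩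
    obtain ⟨t, rfl⟩ : ∃ t, m = 12 + s + t := ⟨m - 12 - s, by ring⟩
    have hs : 0 ≤ s := by omega
    have ht : 0 ≤ t := by omega
    have key : 0 ≤ (((12 + s + t) ^ 2 + 4 * (12 + s + t) + 9 - 10 * (12 + s)) *
      (8 * ((12 + s + t) + (12 + s)) ^ 2 + ((12 + s + t) ^ 2 + 6 * (12 + s + t) + 1) *
        ((12 + s) ^ 2 - 1))) - 8 * ((12 + s + t) + (12 + s)) ^ 4 := by
      ring_nf
      positivity
    linarith

/-- reading off the finite checks -/
theorem checkA_spec {m c μ l : ℤ} (hm : m ≤ 12) (hl : 0 ≤ l) (hc : 2 ≤ c) (hμ : c < μ)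
    (h : l + μ ≤ m) : ineqN (M0 m) m c μ l := by
  have h0 := checkA_true
  unfold checkA at h0
  obtain ⟨m', rfl⟩ := Int.eq_ofNat_of_zero_le (show 0 ≤ m by omega)
  obtain ⟨l', rfl⟩ := Int.eq_ofNat_of_zero_le hl
  obtain ⟨c', rfl⟩ := Int.eq_ofNat_of_zero_le (show 0 ≤ c by omega)
  obtain ⟨μ', rfl⟩ := Int.eq_ofNat_of_zero_le (show 0 ≤ μ by omega)
  rw [List.all_eq_true] at h0
  have h1 := h0 m' (List.mem_range.2 (by omega))
  rw [List.all_eq_true] at h1
  have h2 := h1 (l' + μ') (List.mem_range.2 (by omega))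
  rw [List.all_eq_true] at h2
  have h3 := h2 μ' (List.mem_range.2 (by omega))
  rw [List.all_eq_true] at h3
  have h4 := h3 c' (List.mem_range.2 (by omega))
  have h5 := of_decide_eq_true h4 (by omega)
  have h6 : (((l' + μ' : ℕ) : ℤ) - (μ' : ℤ)) = (l' : ℤ) := by push_cast; ring
  rw [h6] at h5
  exact h5

theorem checkB_spec {m μ l : ℤ} (hm6 : 6 ≤ m) (hm : m ≤ 13) (hl : 0 ≤ l) (hμ : 1 ≤ μ)
    (h : l + μ ≤ m) : 0 ≤ μ * (μ - 1) * (M0 m + 2 + m - 4 * (l + μ))
      + 2 * M0 m * (phi m (l + μ) - phi m l) := by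
  have h0 := checkB_true
  unfold checkB at h0
  obtain ⟨m', rfl⟩ := Int.eq_ofNat_of_zero_le (show 0 ≤ m by omega)
  obtain ⟨l', rfl⟩ := Int.eq_ofNat_of_zero_le hl
  obtain ⟨μ', rfl⟩ := Int.eq_ofNat_of_zero_le (show 0 ≤ μ by omega)
  rw [List.all_eq_true] at h0
  have h1 := h0 m' (List.mem_range.2 (by omega))
  rw [List.all_eq_true] at h1
  have h2 := h1 (l' + μ') (List.mem_range.2 (by omega))
  rw [List.all_eq_true] at h2
  have h3 := h2 μ' (List.mem_range.2 (by omega))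
  have h5 := of_decide_eq_true h3 (by omega) (by omega)
  have h6 : (((l' + μ' : ℕ) : ℤ) - (μ' : ℤ)) = (l' : ℤ) := by push_cast; ring
  rw [h6] at h5
  push_cast at h5
  exact h5

theorem checkC_spec {m c μ l : ℤ} (hm : m ≤ 5) (hl : 0 ≤ l) (hc : 2 ≤ c) (hc7 : c ≤ 7)
    (hμ1 : 1 ≤ μ) (hμ : μ ≤ c)
    (h : l + μ ≤ m) : ineqN (max (M0 m) (2 * c - 2)) m c μ l := by
  have h0 := checkC_true
  unfold checkC at h0
  obtain ⟨m', rfl⟩ := Int.eq_ofNat_of_zero_le (show 0 ≤ m by omega)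
  obtain ⟨l', rfl⟩ := Int.eq_ofNat_of_zero_le hl
  obtain ⟨c', rfl⟩ := Int.eq_ofNat_of_zero_le (show 0 ≤ c by omega)
  obtain ⟨μ', rfl⟩ := Int.eq_ofNat_of_zero_le (show 0 ≤ μ by omega)
  rw [List.all_eq_true] at h0
  have h1 := h0 m' (List.mem_range.2 (by omega))
  rw [List.all_eq_true] at h1
  have h2 := h1 (l' + μ') (List.mem_range.2 (by omega))
  rw [List.all_eq_true] at h2
  have h3 := h2 μ' (List.mem_range.2 (by omega))
  rw [List.all_eq_true] at h3
  have h4 := h3 c' (List.mem_range.2 (by omega))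
  have h5 := of_decide_eq_true h4 (by omega) (by omega) (by omega)
  have h6 : (((l' + μ' : ℕ) : ℤ) - (μ' : ℤ)) = (l' : ℤ) := by push_cast; ring
  rw [h6] at h5
  exact h5

/-- the case `μ ≤ c` -/
theorem numericB {M m c μ l : ℤ} (hj : ∃ j : ℤ, m + 3 ≤ 4 * j ∧ 2 * j * j ≤ M + 1)
    (hc : 2 ≤ c) (hcM : 2 * c ≤ M + 2) (hμ : 1 ≤ μ) (hl : 0 ≤ l) (hm : l + μ ≤ m) (hμc : μ ≤ c) :
    ineqN M m c μ l := by
  obtain ⟨j, hj1, hj2⟩ := hj
  have hM0 := M0_le (by omega) hj1 hj2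
  have hφ : phi m l ≤ phi m (l + μ) := phi_mono (by omega)
  have hM : 0 ≤ M := by omega
  have hφM : 0 ≤ M * (phi m (l + μ) - phi m l) := mul_nonneg hM (by omega)
  have hs := sav_nonneg c μ
  -- the reduced inequality
  have red : ∀ X : ℤ, 0 ≤ μ * (2 * (c - μ) * (M + 2 + m - c - 2 * (l + μ))) + X →
      X ≤ μ * (μ - 1) * (M + 2 + m - 4 * (l + μ)) + 2 * (M * (phi m (l + μ) - phi m l)) →
      ineqN M m c μ l := by
    intro X h1 h2
    unfold ineqN
    have h3 : twoK c μ = μ * (2 * c - μ - 1) := by unfold twoK; rw [if_pos hμc]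
    rw [h3]
    have h4 : (M + 2 + m) * (μ * (2 * c - μ - 1)) - 2 * μ * (c * c + 2 * (c - 1) * (l + μ) - c * μ)
      = μ * (2 * (c - μ) * (M + 2 + m - c - 2 * (l + μ))) + μ * (μ - 1) * (M + 2 + m - 4 * (l + μ)) := by
      ring
    nlinarith
  by_cases h6 : m ≤ 5
  · by_cases h7 : c ≤ 7
    · have h8 := checkC_spec h6 hl hc h7 hμ hμc hm
      exact ineqN_mono (by omega) (by omega) (max_le hM0 (by omega)) h8
    · -- large c
      apply red 0
      · have : 0 ≤ M + 2 + m - c - 2 * (l + μ) := by omega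
        have : 0 ≤ 2 * (c - μ) * (M + 2 + m - c - 2 * (l + μ)) :=
          mul_nonneg (by omega) this
        have := mul_nonneg (show 0 ≤ μ by omega) this
        omega
      · have h9 : 0 ≤ M + 2 + m - 4 * (l + μ) := by omega
        have h10 : 0 ≤ μ * (μ - 1) * (M + 2 + m - 4 * (l + μ)) :=
          mul_nonneg (mul_nonneg (by omega) (by omega)) h9
        omega
  · have hj3 : 3 ≤ j := by omega
    -- M + 2 ≥ 2 m
    have h9 : 2 * m ≤ M + 2 := by nlinarith
    have hfirst : 0 ≤ μ * (2 * (c - μ) * (M + 2 + m - c - 2 * (l + μ))) := by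
      have h10 : 0 ≤ M + 2 + m - c - 2 * (l + μ) := by omega
      exact mul_nonneg (by omega) (mul_nonneg (by omega) h10)
    by_cases h13 : m ≤ 13
    · have hB := checkB_spec (by omega) h13 hl hμ hm
      apply red 0
      · omega
      · have e1 : 0 ≤ (M - M0 m) * (μ * (μ - 1)) :=
          mul_nonneg (by omega) (mul_nonneg (by omega) (by omega))
        have e2 : 0 ≤ (M - M0 m) * (phi m (l + μ) - phi m l) :=
          mul_nonneg (by omega) (by omega)
        nlinarith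
    · have hj5 : 5 ≤ j := by omega
      have h14 : 3 * m ≤ M + 2 := by nlinarith
      apply red 0
      · omega
      · have h9 : 0 ≤ M + 2 + m - 4 * (l + μ) := by omega
        have h10 : 0 ≤ μ * (μ - 1) * (M + 2 + m - 4 * (l + μ)) :=
          mul_nonneg (mul_nonneg (by omega) (by omega)) h9
        omega

/-- base inequality, with `Y = 2 y` -/
theorem baseIneq {c μ Y : ℤ} (hc : 2 ≤ c) (hμ : c ≤ μ) :
    16 * μ * (c * c + (c - 1) * Y - c * μ) ≤ c * (c - 1) * (Y + 4) ^ 2 := by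
  have h1 : c * (c * (c - 1) * (Y + 4) ^ 2 - 16 * μ * (c * c + (c - 1) * Y - c * μ))
      = (c - 1) * (c * (Y + 4) - 8 * μ) ^ 2 + 16 * (c - 2) ^ 2 * (μ * (μ - c)) := by ring
  have h2 : 0 ≤ (c - 1) * (c * (Y + 4) - 8 * μ) ^ 2 + 16 * (c - 2) ^ 2 * (μ * (μ - c)) := by
    have e1 : 0 ≤ (c - 1) * (c * (Y + 4) - 8 * μ) ^ 2 := mul_nonneg (by omega) (sq_nonneg _)
    have e2 : 0 ≤ 16 * (c - 2) ^ 2 * (μ * (μ - c)) :=
      mul_nonneg (by positivity) (mul_nonneg (by omega) (by omega))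
    linarith
  rw [← h1] at h2
  have := nonneg_of_mul_nonneg_right h2 (by omega)
  linarith

/-- the case `μ > c` -/
theorem numericA {M m c μ l : ℤ} (hj : ∃ j : ℤ, m + 3 ≤ 4 * j ∧ 2 * j * j ≤ M + 1)
    (hc : 2 ≤ c) (hcM : 2 * c ≤ M + 2) (hl : 0 ≤ l) (hm : l + μ ≤ m) (hμc : c < μ) :
    ineqN M m c μ l := by
  obtain ⟨j, hj1, hj2⟩ := hj
  by_cases h12 : m ≤ 12
  · exact ineqN_mono (by omega) (by omega) (M0_le (by omega) hj1 hj2) (checkA_spec h12 hl hc hμc hm)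
  have hM1 : (m + 3) ^ 2 ≤ 8 * (M + 1) := by nlinarith
  have hM : 0 ≤ M := by omega
  have hs := sav_nonneg c μ
  have hK : twoK c μ = c * (c - 1) := by unfold twoK; rw [if_neg (by omega)]
  have hcc : 0 ≤ c * (c - 1) := mul_nonneg (by omega) (by omega)
  unfold ineqN
  rw [hK]
  by_cases hlm : m ≤ 2 * l
  · -- `l` large
    have e1 := phi_of_le hlm
    have e2 := phi_of_le (show m ≤ 2 * (l + μ) by omega)
    have e3 : phi m (l + μ) - phi m l = μ * (2 * l + μ - m) := by nlinarith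
    have e4 := baseIneq (Y := m) hc hμc.le
    have e5 : (m + 4) ^ 2 ≤ 8 * (M + 2 + m) := by nlinarith
    have e6 : c * (c - 1) * (m + 4) ^ 2 ≤ c * (c - 1) * (8 * (M + 2 + m)) :=
      mul_le_mul_of_nonneg_left e5 hcc
    -- 2 (c-1) μ (2 (l+μ) - m) ≤ M μ (..)
    have e7 : 0 ≤ (M - 2 * (c - 1)) * (μ * (2 * l + μ - m)) :=
      mul_nonneg (by omega) (mul_nonneg (by omega) (by omega))
    have e8 : 2 * M * phi m (l + μ) - 2 * M * phi m l = 2 * M * (μ * (2 * l + μ - m)) := by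
      rw [← e3]; ring
    have e9 : 0 ≤ (c - 1) * μ * (2 * l + μ - m) :=
      mul_nonneg (mul_nonneg (by omega) (by omega)) (by omega)
    have e10 : 0 ≤ (c - 1) * (μ * (2 * l - m)) :=
      mul_nonneg (by omega) (mul_nonneg (by omega) (by omega))
    nlinarith
  · have hφl : phi m l = 0 := phi_of_lt (by omega)
    rw [hφl]
    by_cases hw : 2 * (l + μ) ≤ m + 1
    · -- base region
      have e4 := baseIneq (Y := 2 * (l + μ)) hc hμc.le
      have e5 : (2 * (l + μ) + 4) ^ 2 ≤ 8 * (M + 2 + m) := by nlinarith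
      have e6 : c * (c - 1) * (2 * (l + μ) + 4) ^ 2 ≤ c * (c - 1) * (8 * (M + 2 + m)) :=
        mul_le_mul_of_nonneg_left e5 hcc
      have e7 : 0 ≤ M * phi m (l + μ) := mul_nonneg hM (phi_nonneg _ _)
      nlinarith
    · -- discriminant region
      obtain ⟨y, hy⟩ : ∃ y, y = l + μ := ⟨_, rfl⟩
      obtain ⟨w, hw'⟩ : ∃ w, w = 2 * y - m := ⟨_, rfl⟩
      rw [← hy] at hw hm ⊢
      have hyw : 2 * y = m + w := by omega
      have hw2 : 2 ≤ w := by omega
      have hwm : w ≤ m := by omega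
      have hcy : c ≤ y := by omega
      have hP := polyP (show 13 ≤ m by omega) hw2 hwm
      have hφ : w ^ 2 - 1 ≤ 4 * phi m y := by
        have := phi_of_le (show m ≤ 2 * y by omega)
        rw [← hw'] at this
        omega
      obtain ⟨S, hS⟩ : ∃ S, S = 2 * (M + 1 + m) - 5 * y := ⟨_, rfl⟩
      have hS2 : 2 * S = 4 * M + 4 - m - 5 * w := by rw [hS]; omega
      have hM1' : m ^ 2 + 6 * m + 9 ≤ 8 * (M + 1) := by
        have e : (m + 3) ^ 2 = m ^ 2 + 6 * m + 9 := by ring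
        linarith
      have hmm : 13 * m ≤ m ^ 2 := by
        have : 0 ≤ (m - 13) * m := mul_nonneg (by omega) (by omega)
        linarith [show (m - 13) * m = m ^ 2 - 13 * m by ring]
      have hww : 2 * w ≤ w ^ 2 := by
        have : 0 ≤ (w - 2) * w := mul_nonneg (by omega) (by omega)
        linarith [show (w - 2) * w = w ^ 2 - 2 * w by ring]
      have hS3 : m ^ 2 + 4 * m + 9 - 10 * w ≤ 4 * S := by linarith
      have hS4 : 0 < m ^ 2 + 4 * m + 9 - 10 * w := by linarith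
      have hSpos : 0 < S := by omega
      -- key inequality
      have k1 : (m ^ 2 + 6 * m + 1) * (w ^ 2 - 1) ≤ 8 * M * (4 * phi m y) := by
        have a1 : m ^ 2 + 6 * m + 1 ≤ 8 * M := by linarith
        have a2 : 0 ≤ w ^ 2 - 1 := by linarith
        calc (m ^ 2 + 6 * m + 1) * (w ^ 2 - 1) ≤ 8 * M * (w ^ 2 - 1) :=
              mul_le_mul_of_nonneg_right a1 a2
          _ ≤ 8 * M * (4 * phi m y) := mul_le_mul_of_nonneg_left hφ (by omega)
      have k2 : 8 * (m + w) ^ 4 ≤ 4 * S * (8 * (m + w) ^ 2 + 8 * M * (4 * phi m y)) := by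
        have b1 : 0 ≤ 8 * (m + w) ^ 2 + 8 * M * (4 * phi m y) := by
          have h1 : 0 ≤ M * phi m y := mul_nonneg hM (phi_nonneg _ _)
          have h2 := sq_nonneg (m + w)
          linarith
        calc 8 * (m + w) ^ 4 ≤ (m ^ 2 + 4 * m + 9 - 10 * w) *
              (8 * (m + w) ^ 2 + (m ^ 2 + 6 * m + 1) * (w ^ 2 - 1)) := hP
          _ ≤ (m ^ 2 + 4 * m + 9 - 10 * w) * (8 * (m + w) ^ 2 + 8 * M * (4 * phi m y)) :=
              mul_le_mul_of_nonneg_left (by linarith) hS4.le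
          _ ≤ 4 * S * (8 * (m + w) ^ 2 + 8 * M * (4 * phi m y)) :=
              mul_le_mul_of_nonneg_right hS3 b1
      rw [← hyw] at k2
      have k3 : 4 * y ^ 4 ≤ S * (4 * y ^ 2 + 4 * (M * phi m y)) := by
        have c1 : 8 * (2 * y) ^ 4 = 32 * (4 * y ^ 4) := by ring
        have c2 : 4 * S * (8 * (2 * y) ^ 2 + 8 * M * (4 * phi m y))
          = 32 * (S * (4 * y ^ 2 + 4 * (M * phi m y))) := by ring
        rw [c1, c2] at k2
        linarith
      have k4 : 0 ≤ c ^ 2 * S - 4 * c * y ^ 2 + 4 * y ^ 2 + 4 * (M * phi m y) := by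
        have : S * (c ^ 2 * S - 4 * c * y ^ 2 + 4 * y ^ 2 + 4 * (M * phi m y))
            = (c * S - 2 * y ^ 2) ^ 2 + (S * (4 * y ^ 2 + 4 * (M * phi m y)) - 4 * y ^ 4) := by ring
        have h2 : 0 ≤ S * (c ^ 2 * S - 4 * c * y ^ 2 + 4 * y ^ 2 + 4 * (M * phi m y)) := by
          rw [this]
          have := sq_nonneg (c * S - 2 * y ^ 2)
          linarith
        exact nonneg_of_mul_nonneg_right h2 hSpos
      have k5 : 0 ≤ 2 * (M + 2 + m) * c ^ 2 + 4 * (M * phi m y) - c ^ 2 * (c + 2) - 4 * c ^ 2 * y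
          - 4 * (c - 1) * y ^ 2 := by
        have h1 : 0 ≤ c ^ 2 * (y - c) := mul_nonneg (sq_nonneg c) (by omega)
        rw [hS] at k4
        linarith
      have k6 : (c * c + 2 * (c - 1) * y) ^ 2 ≤
          2 * c * ((M + 2 + m) * (c * (c - 1)) + 2 * (M * phi m y)) := by
        have h1 : 0 ≤ (c - 1) * (2 * (M + 2 + m) * c ^ 2 + 4 * (M * phi m y) - c ^ 2 * (c + 2)
          - 4 * c ^ 2 * y - 4 * (c - 1) * y ^ 2) := mul_nonneg (by omega) k5
        have h2 : 0 ≤ c ^ 2 * (c - 2) := mul_nonneg (sq_nonneg c) (by omega)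
        have h3 : 0 ≤ M * phi m y := mul_nonneg hM (phi_nonneg _ _)
        linarith
      have k7 : 4 * c * (μ * (c * c + 2 * (c - 1) * y - c * μ)) ≤ (c * c + 2 * (c - 1) * y) ^ 2 := by
        linarith [sq_nonneg (c * c + 2 * (c - 1) * y - 2 * c * μ)]
      have k8 : 0 ≤ 2 * c * ((M + 2 + m) * (c * (c - 1)) + 2 * (M * phi m y)
          - 2 * (μ * (c * c + 2 * (c - 1) * y - c * μ))) := by linarith
      have k9 := nonneg_of_mul_nonneg_right k8 (by omega)
      linarith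

/-- The numeric lemma. -/
theorem numeric {M m c μ l : ℤ} (hj : ∃ j : ℤ, m + 3 ≤ 4 * j ∧ 2 * j * j ≤ M + 1)
    (hc : 2 ≤ c) (hcM : 2 * c ≤ M + 2) (hμ : 1 ≤ μ) (hl : 0 ≤ l) (hm : l + μ ≤ m) :
    ineqN M m c μ l := by
  by_cases h : μ ≤ c
  · exact numericB hj hc hcM hμ hl hm h
  · exact numericA hj hc hcM hl hm (by omega)

end Pool.Agent.H65.Wiener
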