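import Mathlib
import Pool.Agent.H65.Wiener.Numeric

namespace Pool.Agent.H65.Wiener

open Finset

theorem twoK_eq_sum (g μ : ℕ) (hg : 1 ≤ g) :
    twoK g μ = 2 * ∑ s ∈ Ico 1 g, ((min s μ : ℕ) : ℤ) := by
  induction g, hg using Nat.le_induction with
  | base =>
    unfold twoK
    split_ifs with h
    · have : μ = 0 ∨ μ = 1 := by omega
      rcases this with rfl | rfl <;> simp
    · simp
  | succ g hg ih =>
    rw [Finset.sum_Ico_succ_top hg, mul_add, ← ih]
    unfold twoK
    push_cast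
    split_ifs with h1 h2 h2
    · have : min (g : ℤ) μ = μ := by omega
      rw [this]; ring
    · have : (μ : ℤ) = g + 1 := by omega
      rw [this]
      have : min (g : ℤ) (g + 1) = g := by omega
      rw [this]; ring
    · omega
    · have : min (g : ℤ) μ = g := by omega
      rw [this]; ring

variable {V : Type*} [DecidableEq V]

theorem cnt_ge (C : Finset V) (r : V → ℕ) (hr1 : ∀ e ∈ C, 1 ≤ r e)
    (hdown : ∀ e ∈ C, ∀ s, 1 ≤ s → s ≤ r e → ∃ a ∈ C, r a = s) (s : ℕ) :
    min s C.card ≤ (C.filter (fun e => r e ≤ s)).card := by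
  by_cases h : ∃ e ∈ C, s ≤ r e
  · obtain ⟨e, he, hs⟩ := h
    have h1 : (Icc 1 s) ⊆ (C.filter (fun e => r e ≤ s)).image r := by
      intro x hx
      rw [mem_Icc] at hx
      obtain ⟨a, ha, hax⟩ := hdown e he x hx.1 (by omega)
      rw [mem_image]
      exact ⟨a, by rw [mem_filter]; exact ⟨ha, by omega⟩, hax⟩
    have h2 := (card_le_card h1).trans card_image_le
    rw [Nat.card_Icc] at h2
    omega
  · push Not at h
    have : C.filter (fun e => r e ≤ s) = C := by
      rw [filter_eq_self]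
      intro e he
      exact (h e he).le
    rw [this]
    exact min_le_right _ _

theorem sum_defic (C : Finset V) (r : V → ℕ) (g : ℕ) (hr1 : ∀ e ∈ C, 1 ≤ r e)
    (hrg : ∀ e ∈ C, r e ≤ g) :
    ∑ e ∈ C, ((g : ℤ) - r e) = ∑ s ∈ Ico 1 g, ((C.filter (fun e => r e ≤ s)).card : ℤ) := by
  have h1 : ∀ e ∈ C, ((g : ℤ) - r e) = ∑ s ∈ Ico 1 g, (if r e ≤ s then (1 : ℤ) else 0) := by
    intro e he
    rw [← Finset.sum_filter, Finset.sum_const, nsmul_eq_mul, mul_one]
    have h2 : (Ico 1 g).filter (fun s => r e ≤ s) = Ico (r e) g := by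
      ext s
      simp only [mem_filter, mem_Ico]
      have := hr1 e he
      omega
    rw [h2, Nat.card_Ico, Nat.cast_sub (hrg e he)]
  rw [Finset.sum_congr rfl h1, Finset.sum_comm]
  apply Finset.sum_congr rfl
  intro s _
  rw [← Finset.sum_filter, Finset.sum_const, nsmul_eq_mul, mul_one]

theorem class_bound (C : Finset V) (r : V → ℕ) (g : ℕ) (hg : 1 ≤ g) (hr1 : ∀ e ∈ C, 1 ≤ r e)
    (hrg : ∀ e ∈ C, r e ≤ g)
    (hdown : ∀ e ∈ C, ∀ s, 1 ≤ s → s ≤ r e → ∃ a ∈ C, r a = s) (N : ℤ) (hN : 2 ≤ N) :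
    N * twoK g C.card + sav g C.card ≤
      ∑ e ∈ C, (2 * N * ((g : ℤ) - r e) + (if 3 ≤ r e then 4 else 0)) := by
  rw [Finset.sum_add_distrib, ← Finset.mul_sum, sum_defic C r g hr1 hrg, twoK_eq_sum g _ hg]
  have h3 : ∑ e ∈ C, (if 3 ≤ r e then (4 : ℤ) else 0)
      = 4 * ((C.card : ℤ) - ((C.filter (fun e => r e ≤ 2)).card : ℤ)) := by
    rw [← Finset.sum_filter, Finset.sum_const, nsmul_eq_mul]
    have h4 : (C.filter (fun e => 3 ≤ r e)).card + (C.filter (fun e => r e ≤ 2)).card = C.card := by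
      rw [add_comm, ← Finset.card_filter_add_card_filter_not (s := C) (fun e => r e ≤ 2)]
      congr 2
      ext e
      simp only [mem_filter]
      constructor
      · rintro ⟨h1, h2⟩; exact ⟨h1, by omega⟩
      · rintro ⟨h1, h2⟩; exact ⟨h1, by omega⟩
    have h5 : (C.card : ℤ) = ((C.filter (fun e => 3 ≤ r e)).card : ℤ)
      + ((C.filter (fun e => r e ≤ 2)).card : ℤ) := by
      rw [← h4]; push_cast; ring
    rw [h5]; ring
  rw [h3]
  have hmono : ∑ s ∈ Ico 1 g, ((min s C.card : ℕ) : ℤ) ≤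
      ∑ s ∈ Ico 1 g, ((C.filter (fun e => r e ≤ s)).card : ℤ) := by
    apply Finset.sum_le_sum
    intro s _
    exact_mod_cast cnt_ge C r hr1 hdown s
  unfold sav
  split_ifs with h
  · -- g ≥ 3
    have hg3 : 3 ≤ g := by omega
    have hmem : 2 ∈ Ico 1 g := by rw [mem_Ico]; omega
    have h6 : (((C.filter (fun e => r e ≤ 2)).card : ℤ) - ((min 2 C.card : ℕ) : ℤ)) ≤
        ∑ s ∈ Ico 1 g, (((C.filter (fun e => r e ≤ s)).card : ℤ) - ((min s C.card : ℕ) : ℤ)) := by
      apply Finset.single_le_sum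
        (f := fun s => (((C.filter (fun e => r e ≤ s)).card : ℤ) - ((min s C.card : ℕ) : ℤ))) _ hmem
      intro s _
      have := cnt_ge C r hr1 hdown s
      have h7 : ((min s C.card : ℕ) : ℤ) ≤ ((C.filter (fun e => r e ≤ s)).card : ℤ) := by
        exact_mod_cast this
      linarith
    rw [Finset.sum_sub_distrib] at h6
    have h8 : ((min 2 C.card : ℕ) : ℤ) = 2 := by
      have : 2 ≤ C.card := by omega
      rw [min_eq_left this]; rfl
    rw [h8] at h6
    nlinarith
  · have h9 : ((C.filter (fun e => r e ≤ 2)).card : ℤ) ≤ C.card := by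
      exact_mod_cast Finset.card_filter_le _ _
    nlinarith

/-- The excess of a side. -/
def exY (N : ℤ) (ρ : V → V) (g r : V → ℕ) (S : Finset V) : ℤ :=
  ∑ e ∈ S, (2 * (g (ρ e) : ℤ) ^ 2 - (2 * N * ((g (ρ e) : ℤ) - r e) + (if 3 ≤ r e then 4 else 0)))
  + ∑ e ∈ S, ∑ e' ∈ S, (2 * max (g (ρ e) : ℤ) (g (ρ e')) - 2 - (if ρ e = ρ e' then 2 else 0))

theorem side_bound (M m : ℤ) (hj : ∃ j : ℤ, m + 3 ≤ 4 * j ∧ 2 * j * j ≤ M + 1) (hM : 0 ≤ M)
    (hm0 : 0 ≤ m)
    (ρ : V → V) (g r : V → ℕ) (S : Finset V)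
    (hr1 : ∀ e ∈ S, 1 ≤ r e) (hrg : ∀ e ∈ S, r e ≤ g (ρ e))
    (hgM : ∀ e ∈ S, 2 * (g (ρ e) : ℤ) ≤ M + 2)
    (hdown : ∀ e ∈ S, ∀ s, 1 ≤ s → s ≤ r e → ∃ a ∈ S, ρ a = ρ e ∧ r a = s)
    (hcard : (S.card : ℤ) ≤ m) :
    exY (M + 2 + m) ρ g r S ≤ 2 * M * phi m S.card := by
  induction S using Finset.strongInduction with
  | H S ih =>
    rcases S.eq_empty_or_nonempty with rfl | hne
    · unfold exY
      have := mul_nonneg hM (phi_nonneg m ((∅ : Finset V).card : ℤ))
      simp only [sum_empty, add_zero]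
      linarith
    obtain ⟨e0, he0, hmax⟩ := Finset.exists_max_image S (fun e => g (ρ e)) hne
    obtain ⟨C, hC⟩ : ∃ C, C = S.filter (fun e => ρ e = ρ e0) := ⟨_, rfl⟩
    obtain ⟨S', hS'⟩ : ∃ S', S' = S.filter (fun e => ¬ ρ e = ρ e0) := ⟨_, rfl⟩
    have hCmem : ∀ e, e ∈ C ↔ e ∈ S ∧ ρ e = ρ e0 := by intro e; rw [hC, mem_filter]
    have hSmem : ∀ e, e ∈ S' ↔ e ∈ S ∧ ¬ ρ e = ρ e0 := by intro e; rw [hS', mem_filter]
    have hsub : S' ⊂ S := by
      rw [Finset.ssubset_iff_of_subset (fun e he => ((hSmem e).1 he).1)]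
      exact ⟨e0, he0, fun h => ((hSmem e0).1 h).2 rfl⟩
    have hcards : (S.card : ℤ) = S'.card + C.card := by
      have := Finset.card_filter_add_card_filter_not (s := S) (fun e => ρ e = ρ e0)
      rw [← hC, ← hS'] at this
      rw [← this]; push_cast; ring
    have hI := ih S' hsub (fun e he => hr1 e ((hSmem e).1 he).1)
      (fun e he => hrg e ((hSmem e).1 he).1) (fun e he => hgM e ((hSmem e).1 he).1)
      (by
        intro e he s h1 h2
        obtain ⟨a, ha, hρ, hr⟩ := hdown e ((hSmem e).1 he).1 s h1 h2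
        exact ⟨a, (hSmem a).2 ⟨ha, by rw [hρ]; exact ((hSmem e).1 he).2⟩, hρ, hr⟩)
      (by omega)
    obtain ⟨c, hc⟩ : ∃ c, c = g (ρ e0) := ⟨_, rfl⟩
    have hcpos : 1 ≤ c := by rw [hc]; exact (hr1 e0 he0).trans (hrg e0 he0)
    have hgC : ∀ e ∈ C, g (ρ e) = c := by
      intro e he; rw [((hCmem e).1 he).2, hc]
    have hCB := class_bound C r c hcpos (fun e he => hr1 e ((hCmem e).1 he).1)
      (fun e he => by have := hrg e ((hCmem e).1 he).1; rwa [hgC e he] at this)
      (by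
        intro e he s h1 h2
        obtain ⟨a, ha, hρ, hr⟩ := hdown e ((hCmem e).1 he).1 s h1 h2
        exact ⟨a, (hCmem a).2 ⟨ha, by rw [hρ]; exact ((hCmem e).1 he).2⟩, hr⟩)
      (M + 2 + m) (by omega)
    -- split
    have hsplit : ∀ F : V → ℤ, ∑ e ∈ S, F e = ∑ e ∈ S', F e + ∑ e ∈ C, F e := by
      intro F
      rw [hC, hS', add_comm]
      exact (Finset.sum_filter_add_sum_filter_not S (fun e => ρ e = ρ e0) F).symm
    have hY : exY (M + 2 + m) ρ g r S = exY (M + 2 + m) ρ g r S' + (2 * (C.card : ℤ) * (c : ℤ) ^ 2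
        - ∑ e ∈ C, (2 * (M + 2 + m) * ((c : ℤ) - r e) + (if 3 ≤ r e then 4 else 0))
        + (C.card : ℤ) * C.card * (2 * c - 4) + 2 * ((C.card : ℤ) * S'.card * (2 * c - 2))) := by
      unfold exY
      have e1 : ∑ e ∈ C, (2 * (g (ρ e) : ℤ) ^ 2 - (2 * (M + 2 + m) * ((g (ρ e) : ℤ) - r e)
          + (if 3 ≤ r e then 4 else 0)))
          = 2 * (C.card : ℤ) * (c : ℤ) ^ 2
          - ∑ e ∈ C, (2 * (M + 2 + m) * ((c : ℤ) - r e) + (if 3 ≤ r e then 4 else 0)) := by
        rw [Finset.sum_congr rfl (g := fun e => 2 * (c : ℤ) ^ 2 -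
          (2 * (M + 2 + m) * ((c : ℤ) - r e) + (if 3 ≤ r e then 4 else 0)))
          (fun e he => by rw [hgC e he])]
        rw [Finset.sum_sub_distrib, Finset.sum_const, nsmul_eq_mul]
        ring
      have e2 : ∑ e ∈ C, ∑ e' ∈ C, (2 * max (g (ρ e) : ℤ) (g (ρ e')) - 2
          - (if ρ e = ρ e' then 2 else 0)) = (C.card : ℤ) * C.card * (2 * c - 4) := by
        rw [Finset.sum_congr rfl (g := fun e => (C.card : ℤ) * (2 * c - 4))]
        · rw [Finset.sum_const, nsmul_eq_mul]; ring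
        · intro e he
          rw [Finset.sum_congr rfl (g := fun e' => (2 * (c : ℤ) - 4))]
          · rw [Finset.sum_const, nsmul_eq_mul]
          · intro e' he'
            rw [hgC e he, hgC e' he', if_pos (by rw [((hCmem e).1 he).2, ((hCmem e').1 he').2]),
              max_self]
            ring
      have e3 : ∑ e ∈ C, ∑ e' ∈ S', (2 * max (g (ρ e) : ℤ) (g (ρ e')) - 2
          - (if ρ e = ρ e' then 2 else 0)) = (C.card : ℤ) * S'.card * (2 * c - 2) := by
        rw [Finset.sum_congr rfl (g := fun e => (S'.card : ℤ) * (2 * c - 2))]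
        · rw [Finset.sum_const, nsmul_eq_mul]; ring
        · intro e he
          rw [Finset.sum_congr rfl (g := fun e' => (2 * (c : ℤ) - 2))]
          · rw [Finset.sum_const, nsmul_eq_mul]
          · intro e' he'
            have h1 : g (ρ e') ≤ c := by rw [hc]; exact hmax e' ((hSmem e').1 he').1
            rw [hgC e he, if_neg (by
              rw [((hCmem e).1 he).2]; exact fun h => ((hSmem e').1 he').2 h.symm),
              max_eq_left (by exact_mod_cast h1)]
            ring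
      have e4 : ∑ e ∈ S', ∑ e' ∈ C, (2 * max (g (ρ e) : ℤ) (g (ρ e')) - 2
          - (if ρ e = ρ e' then 2 else 0)) = (C.card : ℤ) * S'.card * (2 * c - 2) := by
        rw [← e3, Finset.sum_comm]
        apply Finset.sum_congr rfl
        intro e _
        apply Finset.sum_congr rfl
        intro e' _
        rw [max_comm]
        congr 1
        by_cases h : ρ e' = ρ e
        · rw [if_pos h, if_pos h.symm]
        · rw [if_neg h, if_neg (fun h' => h h'.symm)]
      rw [hsplit, hsplit, Finset.sum_congr rfl (fun e _ => hsplit _),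
        Finset.sum_congr rfl (s₁ := C) (fun e _ => hsplit _), Finset.sum_add_distrib,
        Finset.sum_add_distrib, e1, e2, e3, e4]
      ring
    rw [hY]
    have hCpos : 1 ≤ C.card := Finset.card_pos.2 ⟨e0, (hCmem e0).2 ⟨he0, rfl⟩⟩
    by_cases hc2 : 2 ≤ c
    · have hnum := numeric (M := M) (m := m) (c := c) (μ := C.card) (l := S'.card) hj
        (by omega) (by have := hgM e0 he0; rw [← hc] at this; exact this) (by omega) (by omega)
        (by omega)
      unfold ineqN at hnum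
      rw [hcards]
      have hexp : (2 * (C.card : ℤ) * (c : ℤ) ^ 2 + (C.card : ℤ) * C.card * (2 * c - 4)
        + 2 * ((C.card : ℤ) * S'.card * (2 * c - 2)))
        = 2 * (C.card : ℤ) * ((c : ℤ) * c + 2 * ((c : ℤ) - 1) * ((S'.card : ℤ) + C.card)
          - (c : ℤ) * C.card) := by ring
      linarith
    · have hc1 : c = 1 := by omega
      subst hc1
      have hφ : phi m S'.card ≤ phi m S.card := phi_mono (by omega)
      have hφM := mul_nonneg hM (sub_nonneg.2 hφ)
      have hsum : 0 ≤ ∑ e ∈ C, (2 * (M + 2 + m) * (((1 : ℕ) : ℤ) - r e)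
          + (if 3 ≤ r e then 4 else 0)) := by
        apply Finset.sum_nonneg
        intro e he
        have h1 := hr1 e ((hCmem e).1 he).1
        have h2 := hrg e ((hCmem e).1 he).1
        rw [hgC e he] at h2
        have : r e = 1 := by omega
        rw [this]; simp
      have h3 : (1 : ℤ) ≤ C.card := by exact_mod_cast hCpos
      push_cast at *
      nlinarith

end Pool.Agent.H65.Wiener
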