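import Mathlib
import Pool.Agent.H65.Wiener.Side
import Pool.Agent.H65.Wiener.Graph

namespace Pool.Agent.H65.Wiener

open Finset

/-- `∑ |i - j|` over ordered pairs of positions on the path -/
def sp (d : ℕ) : ℤ := ∑ i ∈ range (d + 1), ∑ j ∈ range (d + 1), |(i : ℤ) - j|

/-- `∑ |c - j|` over positions on the path -/
def sg (d : ℕ) (c : ℕ) : ℤ := ∑ j ∈ range (d + 1), |(c : ℤ) - j|

theorem sg_eq (d c : ℕ) (h : c ≤ d) :
    2 * sg d c = (c : ℤ) * (c + 1) + ((d : ℤ) - c) * (d - c + 1) := by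
  unfold sg
  induction d, h using Nat.le_induction with
  | base =>
    have : ∀ n : ℕ, ∀ c : ℕ, n ≤ c + 1 →
        2 * ∑ j ∈ range n, |(c : ℤ) - j| = (n : ℤ) * (2 * c + 1 - n) := by
      intro n c
      induction n with
      | zero => intro _; simp
      | succ n ih =>
        intro h
        rw [sum_range_succ, mul_add, ih (by omega), abs_of_nonneg (by omega)]
        push_cast; ring
    rw [this _ _ le_rfl]
    push_cast; ring
  | succ d hd ih =>
    rw [sum_range_succ, mul_add, ih, abs_of_nonpos (by push_cast; omega)]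
    push_cast; ring

/-- the upper bound: twice the Wiener index of the balanced double broom -/
def UB (d m : ℕ) : ℤ := sp d + 2 * m * ((d + 1) + sg d 1) + 2 * m * (m - 1)
  + 2 * (d - 2) * (((m : ℤ) / 2) * (((m : ℤ) + 1) / 2))

theorem phi_final (m p q : ℤ) (h : p + q = m) :
    p * q + phi m p + phi m q ≤ (m / 2) * ((m + 1) / 2) := by
  have hq : q = m - p := by omega
  subst hq
  unfold phi
  split_ifs with h1 h2 h2
  · have h3 : m = 2 * p := by omega
    subst h3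
    have h4 : 2 * p / 2 = p := by omega
    have h5 : (2 * p + 1) / 2 = p := by omega
    rw [h4, h5]
    nlinarith
  · nlinarith
  · nlinarith
  · omega

variable {V : Type*} [Fintype V] {G : SimpleGraph V}

theorem Geo.injOn {v : ℕ → V} {d : ℕ} (hv : Geo G v d) :
    Set.InjOn v (range (d + 1) : Set ℕ) := by
  intro i hi j hj he
  rw [mem_coe, mem_range] at hi hj
  rcases le_total i j with h | h
  · have := hv i j h (by omega)
    rw [he, SimpleGraph.dist_self] at this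
    omega
  · have := hv j i h (by omega)
    rw [he, SimpleGraph.dist_self] at this
    omega

open Classical in
/-- the vertices off the path -/
noncomputable def offP (v : ℕ → V) (d : ℕ) : Finset V := univ.filter (fun x => ¬ OnP v d x)

theorem mem_offP {v : ℕ → V} {d : ℕ} {x : V} : x ∈ offP v d ↔ ¬ OnP v d x := by
  unfold offP; simp

theorem sum_split {v : ℕ → V} {d : ℕ} (hv : Geo G v d) (F : V → ℤ) :
    ∑ x, F x = ∑ i ∈ range (d + 1), F (v i) + ∑ e ∈ offP v d, F e := by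
  classical
  have h1 : (range (d + 1)).image v = univ.filter (fun x => OnP v d x) := by
    ext x
    rw [mem_image, mem_filter]
    constructor
    · rintro ⟨i, hi, rfl⟩
      rw [mem_range] at hi
      exact ⟨mem_univ _, i, by omega, rfl⟩
    · rintro ⟨_, i, hi, rfl⟩
      exact ⟨i, by rw [mem_range]; omega, rfl⟩
  rw [← Finset.sum_image (f := F) hv.injOn, h1]
  have := Finset.sum_filter_add_sum_filter_not univ (fun x => OnP v d x) F
  rw [← this]
  unfold offP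
  congr 1

theorem card_offP {v : ℕ → V} {d : ℕ} (hv : Geo G v d) :
    (Fintype.card V : ℤ) = d + 1 + (offP v d).card := by
  have h := sum_split hv (fun _ => (1 : ℤ))
  simp only [sum_const, card_range, nsmul_eq_mul, mul_one] at h
  rw [Finset.card_univ] at h
  rw [h]; push_cast; ring

theorem W2_split {v : ℕ → V} {d : ℕ} (hv : Geo G v d) :
    ∑ x, ∑ y, (G.dist x y : ℤ) = sp d + 2 * ∑ e ∈ offP v d, ∑ j ∈ range (d + 1),
      (G.dist e (v j) : ℤ) + ∑ e ∈ offP v d, ∑ e' ∈ offP v d, (G.dist e e' : ℤ) := by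
  rw [sum_split hv]
  have h1 : ∀ x, ∑ y, (G.dist x y : ℤ) = ∑ i ∈ range (d + 1), (G.dist x (v i) : ℤ)
      + ∑ e ∈ offP v d, (G.dist x e : ℤ) := fun x => sum_split hv (fun y => (G.dist x y : ℤ))
  rw [Finset.sum_congr rfl (fun i _ => h1 (v i)), Finset.sum_congr rfl (fun e _ => h1 e),
    Finset.sum_add_distrib, Finset.sum_add_distrib]
  have h2 : ∑ i ∈ range (d + 1), ∑ j ∈ range (d + 1), (G.dist (v i) (v j) : ℤ) = sp d := by
    unfold sp
    apply Finset.sum_congr rfl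
    intro i hi
    apply Finset.sum_congr rfl
    intro j hj
    rw [mem_range] at hi hj
    exact hv.dist_eq (by omega) (by omega)
  have h3 : ∑ i ∈ range (d + 1), ∑ e ∈ offP v d, (G.dist (v i) e : ℤ)
      = ∑ e ∈ offP v d, ∑ j ∈ range (d + 1), (G.dist e (v j) : ℤ) := by
    rw [Finset.sum_comm]
    apply Finset.sum_congr rfl
    intro e _
    apply Finset.sum_congr rfl
    intro i _
    rw [G.dist_comm]
  rw [h2, h3]; ring

/-- bound on the distances from one vertex to the path -/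
theorem T_bound (hG : G.Connected) {v : ℕ → V} {d : ℕ} (hv : Geo G v d) (e : V) (r c : ℕ)
    (hc : c ≤ d) (h : G.dist e (v c) ≤ r) :
    ∑ j ∈ range (d + 1), (G.dist e (v j) : ℤ) ≤ (d + 1) * r + sg d c := by
  have h1 : ∑ j ∈ range (d + 1), (G.dist e (v j) : ℤ) ≤
      ∑ j ∈ range (d + 1), ((r : ℤ) + |(c : ℤ) - j|) := by
    apply Finset.sum_le_sum
    intro j hj
    rw [mem_range] at hj
    have h2 := hG.dist_triangle (u := e) (v := v c) (w := v j)
    have h3 := hv.dist_eq hc (show j ≤ d by omega)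
    rw [← h3]
    have h4 : (G.dist e (v j) : ℤ) ≤ G.dist e (v c) + G.dist (v c) (v j) := by exact_mod_cast h2
    have h5 : (G.dist e (v c) : ℤ) ≤ r := by exact_mod_cast h
    linarith
  refine h1.trans (le_of_eq ?_)
  rw [Finset.sum_add_distrib, sum_const, card_range, nsmul_eq_mul]
  unfold sg
  push_cast; ring

open Classical in
/-- The bound in the case where every vertex is close to the centre. -/
theorem good_bound (hG : G.Connected) {v : ℕ → V} {d : ℕ} (hd : 3 ≤ d) (hv : Geo G v d)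
    (hf : ∀ x, cdist G v d x ≤ d / 2)
    (hj : ∃ j : ℤ, ((offP v d).card : ℤ) + 3 ≤ 4 * j ∧ 2 * j * j ≤ ((d : ℤ) - 2) + 1) :
    ∑ x, ∑ y, (G.dist x y : ℤ) ≤ UB d (offP v d).card := by
  obtain ⟨ρ, r, c, hdata⟩ := exists_data hG hv hf
  obtain ⟨E, hE⟩ : ∃ E, E = offP v d := ⟨_, rfl⟩
  have hEm : ∀ x, x ∈ E ↔ ¬ OnP v d x := by intro x; rw [hE, mem_offP]
  rw [← hE] at hj ⊢
  obtain ⟨m, hm⟩ : ∃ m : ℕ, m = E.card := ⟨_, rfl⟩
  rw [← hm] at hj ⊢
  -- level of the attachment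
  obtain ⟨g, hg⟩ : ∃ g : V → ℕ, ∀ z, g z = min (c z) (d - c z) := ⟨_, fun _ => rfl⟩
  have hr1 : ∀ e ∈ E, 1 ≤ r e := fun e he => (hdata e ((hEm e).1 he)).1
  have hcd : ∀ e ∈ E, c (ρ e) ≤ d := fun e he => (hdata e ((hEm e).1 he)).2.1
  have hrg : ∀ e ∈ E, r e ≤ g (ρ e) := fun e he => by
    rw [hg]; exact (hdata e ((hEm e).1 he)).2.2.1
  have hdv : ∀ e ∈ E, G.dist e (v (c (ρ e))) ≤ r e := fun e he => (hdata e ((hEm e).1 he)).2.2.2.1
  have hdρ : ∀ e ∈ E, G.dist e (ρ e) + 1 ≤ r e := fun e he => (hdata e ((hEm e).1 he)).2.2.2.2.1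
  have hdown : ∀ e ∈ E, ∀ s, 1 ≤ s → s ≤ r e →
      ∃ a ∈ E, ρ a = ρ e ∧ r a = s ∧ G.dist e a ≤ r e - s := by
    intro e he s h1 h2
    obtain ⟨a, ha, h3⟩ := (hdata e ((hEm e).1 he)).2.2.2.2.2 s h1 h2
    exact ⟨a, (hEm a).2 ha, h3⟩
  -- the level two ancestor
  obtain ⟨anc, hanc⟩ : ∃ anc : V → V, ∀ e, e ∈ E → 3 ≤ r e →
      anc e ∈ E ∧ ρ (anc e) = ρ e ∧ r (anc e) = 2 ∧ G.dist e (anc e) ≤ r e - 2 := by
    have : ∀ e, ∃ a, e ∈ E → 3 ≤ r e → a ∈ E ∧ ρ a = ρ e ∧ r a = 2 ∧ G.dist e a ≤ r e - 2 := by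
      intro e
      by_cases he : e ∈ E ∧ 3 ≤ r e
      · obtain ⟨a, h1, h2⟩ := hdown e he.1 2 (by omega) (by omega)
        exact ⟨a, fun _ _ => ⟨h1, h2⟩⟩
      · exact ⟨e, fun h1 h2 => absurd ⟨h1, h2⟩ he⟩
    choose anc hanc using this
    exact ⟨anc, hanc⟩
  -- savings
  obtain ⟨sv, hsv⟩ : ∃ sv : V → V → ℤ, ∀ e e', sv e e' =
      (if 3 ≤ r e ∧ e' = anc e then 2 else 0) + (if 3 ≤ r e' ∧ e = anc e' then 2 else 0) :=
    ⟨_, fun _ _ => rfl⟩
  obtain ⟨gam, hgam⟩ : ∃ gam : V → V → ℤ, ∀ e e', gam e e' =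
      (if (2 * c (ρ e) ≤ d ↔ 2 * c (ρ e') ≤ d) then
        (2 * max (g (ρ e) : ℤ) (g (ρ e')) - 2 - (if ρ e = ρ e' then 2 else 0)) else (d : ℤ) - 2) :=
    ⟨_, fun _ _ => rfl⟩
  obtain ⟨X, hX⟩ : ∃ X : V → V → ℤ, ∀ e e', X e e' = 2 + gam e e' - ((g (ρ e) : ℤ) - r e)
      - ((g (ρ e') : ℤ) - r e') - sv e e' := ⟨_, fun _ _ => rfl⟩
  have hgd : ∀ e ∈ E, 2 * g (ρ e) ≤ d := by intro e he; rw [hg]; omega
  -- the pair bound
  have hpair : ∀ e ∈ E, ∀ e' ∈ E, e ≠ e' → (G.dist e e' : ℤ) ≤ X e e' := by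
    intro e he e' he' hne
    have a1 := hr1 e he
    have a2 := hr1 e' he'
    have a3 := hrg e he
    have a4 := hrg e' he'
    rw [hX, hgam, hsv]
    by_cases hρ : ρ e = ρ e'
    · have hb : G.dist e e' + 2 ≤ r e + r e' := by
        have b1 := hdρ e he
        have b2 := hdρ e' he'
        have b3 := hG.dist_triangle (u := e) (v := ρ e) (w := e')
        rw [hρ, G.dist_comm (u := ρ e') (v := e')] at b3
        rw [hρ] at b1
        omega
      rw [if_pos hρ, hρ, if_pos Iff.rfl, max_self]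
      split_ifs with h1 h2 h2
      · exfalso
        have := (hanc e he h1.1).2.2.1
        rw [← h1.2] at this
        omega
      · have h3 := hanc e he h1.1
        rw [← h1.2] at h3
        have h4 := h3.2.2.2
        have h5 := h3.2.2.1
        have h6 := h1.1
        omega
      · have h3 := hanc e' he' h2.1
        rw [← h2.2] at h3
        have h4 := h3.2.2.2
        rw [G.dist_comm] at h4
        have h5 := h3.2.2.1
        have h6 := h2.1
        omega
      · omega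
    · have hs1 : ¬ (3 ≤ r e ∧ e' = anc e) := by
        rintro ⟨h1, h2⟩
        have := (hanc e he h1).2.1
        rw [← h2] at this
        exact hρ this.symm
      have hs2 : ¬ (3 ≤ r e' ∧ e = anc e') := by
        rintro ⟨h1, h2⟩
        have := (hanc e' he' h1).2.1
        rw [← h2] at this
        exact hρ this
      rw [if_neg hs1, if_neg hs2, if_neg hρ]
      have b1 := hdv e he
      have b2 := hdv e' he'
      have b3 := hG.dist_triangle (u := e) (v := v (c (ρ e))) (w := e')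
      have b4 := hG.dist_triangle (u := v (c (ρ e))) (v := v (c (ρ e'))) (w := e')
      rw [G.dist_comm (u := v (c (ρ e'))) (v := e')] at b4
      have b5 := hv.dist_eq (hcd e he) (hcd e' he')
      have b6 := hcd e he
      have b7 := hcd e' he'
      have b8 : (G.dist e e' : ℤ) ≤ r e + r e' + |(c (ρ e) : ℤ) - c (ρ e')| := by
        rw [← b5]; omega
      refine b8.trans ?_
      have g1 := hg (ρ e)
      have g2 := hg (ρ e')
      split_ifs with h
      · rcases le_total (c (ρ e)) (c (ρ e')) with hh | hh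
        · rw [abs_of_nonpos (by omega)]
          omega
        · rw [abs_of_nonneg (by omega)]
          omega
      · rcases le_total (c (ρ e)) (c (ρ e')) with hh | hh
        · rw [abs_of_nonpos (by omega)]
          omega
        · rw [abs_of_nonneg (by omega)]
          omega
  -- sum over pairs
  have hdiag : ∀ e ∈ E, X e e = 2 * (g (ρ e) : ℤ) - 2 - 2 * ((g (ρ e) : ℤ) - r e) := by
    intro e he
    rw [hX, hgam, hsv, if_pos Iff.rfl, if_pos rfl, max_self]
    have h1 : ¬ (3 ≤ r e ∧ e = anc e) := by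
      rintro ⟨h1, h2⟩
      have := (hanc e he h1).2.2.1
      rw [← h2] at this
      omega
    rw [if_neg h1]; ring
  have hsumpair : ∑ e ∈ E, ∑ e' ∈ E, (G.dist e e' : ℤ) ≤ ∑ e ∈ E, ∑ e' ∈ E, X e e'
      - ∑ e ∈ E, (2 * (g (ρ e) : ℤ) - 2 - 2 * ((g (ρ e) : ℤ) - r e)) := by
    rw [← Finset.sum_sub_distrib]
    apply Finset.sum_le_sum
    intro e he
    have h1 : ∑ e' ∈ E, (G.dist e e' : ℤ) ≤ ∑ e' ∈ E, (X e e' - (if e = e' then X e e else 0)) := by
      apply Finset.sum_le_sum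
      intro e' he'
      by_cases h : e = e'
      · subst h
        rw [if_pos rfl, SimpleGraph.dist_self]; simp
      · rw [if_neg h, sub_zero]
        exact hpair e he e' he' h
    refine h1.trans (le_of_eq ?_)
    rw [Finset.sum_sub_distrib, Finset.sum_ite_eq, if_pos he, hdiag e he]
  -- savings sum
  have hs1 : ∑ e ∈ E, ∑ e' ∈ E, sv e e' = ∑ e ∈ E, (if 3 ≤ r e then (4 : ℤ) else 0) := by
    have e1 : ∀ e ∈ E, ∑ e' ∈ E, (if 3 ≤ r e ∧ e' = anc e then (2 : ℤ) else 0)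
        = if 3 ≤ r e then 2 else 0 := by
      intro e he
      by_cases h : 3 ≤ r e
      · rw [if_pos h]
        have : ∀ e' ∈ E, (if 3 ≤ r e ∧ e' = anc e then (2 : ℤ) else 0)
            = if e' = anc e then 2 else 0 := by
          intro e' _
          by_cases h' : e' = anc e
          · rw [if_pos ⟨h, h'⟩, if_pos h']
          · rw [if_neg (fun h'' => h' h''.2), if_neg h']
        rw [Finset.sum_congr rfl this, Finset.sum_ite_eq', if_pos (hanc e he h).1]
      · rw [if_neg h]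
        apply Finset.sum_eq_zero
        intro e' _
        rw [if_neg (fun h'' => h h''.1)]
    have e2 : ∑ e ∈ E, ∑ e' ∈ E, (if 3 ≤ r e' ∧ e = anc e' then (2 : ℤ) else 0)
        = ∑ e ∈ E, (if 3 ≤ r e then (2 : ℤ) else 0) := by
      rw [Finset.sum_comm]
      exact Finset.sum_congr rfl e1
    have e3 : ∑ e ∈ E, ∑ e' ∈ E, sv e e' = ∑ e ∈ E, ∑ e' ∈ E,
        (if 3 ≤ r e ∧ e' = anc e then (2 : ℤ) else 0)
        + ∑ e ∈ E, ∑ e' ∈ E, (if 3 ≤ r e' ∧ e = anc e' then (2 : ℤ) else 0) := by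
      rw [← Finset.sum_add_distrib]
      apply Finset.sum_congr rfl
      intro e _
      rw [← Finset.sum_add_distrib]
      apply Finset.sum_congr rfl
      intro e' _
      exact hsv e e'
    rw [e3, Finset.sum_congr rfl e1, e2, ← Finset.sum_add_distrib]
    apply Finset.sum_congr rfl
    intro e _
    split_ifs <;> norm_num
  -- sides
  obtain ⟨L, hL⟩ : ∃ L, L = E.filter (fun e => 2 * c (ρ e) ≤ d) := ⟨_, rfl⟩
  obtain ⟨R, hR⟩ : ∃ R, R = E.filter (fun e => ¬ 2 * c (ρ e) ≤ d) := ⟨_, rfl⟩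
  have hLm : ∀ e, e ∈ L ↔ e ∈ E ∧ 2 * c (ρ e) ≤ d := by intro e; rw [hL, mem_filter]
  have hRm : ∀ e, e ∈ R ↔ e ∈ E ∧ ¬ 2 * c (ρ e) ≤ d := by intro e; rw [hR, mem_filter]
  have hsplit : ∀ F : V → ℤ, ∑ e ∈ E, F e = ∑ e ∈ L, F e + ∑ e ∈ R, F e := by
    intro F
    rw [hL, hR]
    exact (Finset.sum_filter_add_sum_filter_not E (fun e => 2 * c (ρ e) ≤ d) F).symm
  have hcards : (m : ℤ) = L.card + R.card := by
    have := hsplit (fun _ => 1)
    simp only [sum_const, nsmul_eq_mul, mul_one] at this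
    rw [hm, this]
  have hgamsum : ∑ e ∈ E, ∑ e' ∈ E, gam e e' = 2 * ((d : ℤ) - 2) * (L.card * R.card)
      + ∑ e ∈ L, ∑ e' ∈ L, (2 * max (g (ρ e) : ℤ) (g (ρ e')) - 2 - (if ρ e = ρ e' then 2 else 0))
      + ∑ e ∈ R, ∑ e' ∈ R, (2 * max (g (ρ e) : ℤ) (g (ρ e')) - 2
        - (if ρ e = ρ e' then 2 else 0)) := by
    have f1 : ∑ e ∈ L, ∑ e' ∈ L, gam e e' = ∑ e ∈ L, ∑ e' ∈ L,
        (2 * max (g (ρ e) : ℤ) (g (ρ e')) - 2 - (if ρ e = ρ e' then 2 else 0)) := by
      apply Finset.sum_congr rfl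
      intro e he
      apply Finset.sum_congr rfl
      intro e' he'
      rw [hgam, if_pos (iff_of_true ((hLm e).1 he).2 ((hLm e').1 he').2)]
    have f2 : ∑ e ∈ R, ∑ e' ∈ R, gam e e' = ∑ e ∈ R, ∑ e' ∈ R,
        (2 * max (g (ρ e) : ℤ) (g (ρ e')) - 2 - (if ρ e = ρ e' then 2 else 0)) := by
      apply Finset.sum_congr rfl
      intro e he
      apply Finset.sum_congr rfl
      intro e' he'
      rw [hgam, if_pos (iff_of_false ((hRm e).1 he).2 ((hRm e').1 he').2)]
    have f3 : ∑ e ∈ L, ∑ e' ∈ R, gam e e' = ((d : ℤ) - 2) * (L.card * R.card) := by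
      rw [Finset.sum_congr rfl (g := fun _ => (R.card : ℤ) * ((d : ℤ) - 2))]
      · rw [sum_const, nsmul_eq_mul]; ring
      · intro e he
        rw [Finset.sum_congr rfl (g := fun _ => ((d : ℤ) - 2))]
        · rw [sum_const, nsmul_eq_mul]
        · intro e' he'
          rw [hgam, if_neg (fun h => ((hRm e').1 he').2 (h.1 ((hLm e).1 he).2))]
    have f4 : ∑ e ∈ R, ∑ e' ∈ L, gam e e' = ((d : ℤ) - 2) * (L.card * R.card) := by
      rw [Finset.sum_congr rfl (g := fun _ => (L.card : ℤ) * ((d : ℤ) - 2))]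
      · rw [sum_const, nsmul_eq_mul]; ring
      · intro e he
        rw [Finset.sum_congr rfl (g := fun _ => ((d : ℤ) - 2))]
        · rw [sum_const, nsmul_eq_mul]
        · intro e' he'
          rw [hgam, if_neg (fun h => ((hRm e).1 he).2 (h.2 ((hLm e').1 he').2))]
    rw [hsplit, Finset.sum_congr rfl (fun e _ => hsplit _),
      Finset.sum_congr rfl (s₁ := R) (fun e _ => hsplit _), Finset.sum_add_distrib,
      Finset.sum_add_distrib, f1, f2, f3, f4]
    ring
  have hXsum : ∑ e ∈ E, ∑ e' ∈ E, X e e' = 2 * (m : ℤ) ^ 2 + ∑ e ∈ E, ∑ e' ∈ E, gam e e'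
      - 2 * m * ∑ e ∈ E, ((g (ρ e) : ℤ) - r e) - ∑ e ∈ E, (if 3 ≤ r e then (4 : ℤ) else 0) := by
    rw [← hs1]
    obtain ⟨kf, hkf⟩ : ∃ kf : V → ℤ, ∀ e, kf e = (g (ρ e) : ℤ) - r e := ⟨_, fun _ => rfl⟩
    have h1 : ∀ e ∈ E, ∑ e' ∈ E, X e e' = 2 * (m : ℤ) + ∑ e' ∈ E, gam e e' - m * kf e
        - ∑ e' ∈ E, kf e' - ∑ e' ∈ E, sv e e' := by
      intro e _
      have h2 : ∑ e' ∈ E, X e e' = ∑ e' ∈ E, (2 + gam e e' - kf e - kf e' - sv e e') := by
        apply Finset.sum_congr rfl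
        intro e' _
        rw [hX, hkf, hkf]
      rw [h2, Finset.sum_sub_distrib, Finset.sum_sub_distrib, Finset.sum_sub_distrib,
        Finset.sum_add_distrib, sum_const, sum_const, nsmul_eq_mul, nsmul_eq_mul, ← hm]
      ring
    have h3 : ∑ e ∈ E, ((g (ρ e) : ℤ) - r e) = ∑ e ∈ E, kf e :=
      Finset.sum_congr rfl (fun e _ => (hkf e).symm)
    rw [Finset.sum_congr rfl h1, Finset.sum_sub_distrib, Finset.sum_sub_distrib,
      Finset.sum_sub_distrib, Finset.sum_add_distrib, sum_const, sum_const, nsmul_eq_mul,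
      nsmul_eq_mul, ← hm, ← Finset.mul_sum, h3]
    ring
  -- path sums
  have hT : ∑ e ∈ E, ∑ j ∈ range (d + 1), (G.dist e (v j) : ℤ) * 2 ≤
      ∑ e ∈ E, (2 * ((d : ℤ) + 1 + sg d 1) + 2 * ((g (ρ e) : ℤ) - 1) * ((g (ρ e) : ℤ) + 2)
        - 2 * ((d : ℤ) + 1) * ((g (ρ e) : ℤ) - r e)) := by
    apply Finset.sum_le_sum
    intro e he
    rw [← Finset.sum_mul]
    have h1 := T_bound hG hv e (r e) (c (ρ e)) (hcd e he) (hdv e he)
    have h2 := sg_eq d (c (ρ e)) (hcd e he)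
    have h3 := sg_eq d 1 (by omega)
    have h4 : (c (ρ e) : ℤ) * (c (ρ e) + 1) + ((d : ℤ) - c (ρ e)) * (d - c (ρ e) + 1)
        = (g (ρ e) : ℤ) * (g (ρ e) + 1) + ((d : ℤ) - g (ρ e)) * (d - g (ρ e) + 1) := by
      have g1 := hg (ρ e)
      have g2 := hcd e he
      rcases le_total (c (ρ e)) (d - c (ρ e)) with h | h
      · have : g (ρ e) = c (ρ e) := by omega
        rw [this]
      · have : (g (ρ e) : ℤ) = d - c (ρ e) := by omega
        rw [this]; ring
    push_cast at h3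
    nlinarith
  have hT' : 2 * ∑ e ∈ E, ∑ j ∈ range (d + 1), (G.dist e (v j) : ℤ) ≤
      ∑ e ∈ E, (2 * ((d : ℤ) + 1 + sg d 1) + 2 * ((g (ρ e) : ℤ) - 1) * ((g (ρ e) : ℤ) + 2)
        - 2 * ((d : ℤ) + 1) * ((g (ρ e) : ℤ) - r e)) := by
    refine le_trans (le_of_eq ?_) hT
    rw [Finset.mul_sum]
    apply Finset.sum_congr rfl
    intro e _
    rw [Finset.mul_sum]
    apply Finset.sum_congr rfl
    intro j _
    ring
  -- side bounds
  have hLb := side_bound ((d : ℤ) - 2) m hj (by omega) (by omega) ρ g r L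
    (fun e he => hr1 e ((hLm e).1 he).1) (fun e he => hrg e ((hLm e).1 he).1)
    (fun e he => by have := hgd e ((hLm e).1 he).1; omega)
    (by
      intro e he s h1 h2
      obtain ⟨a, ha, h3, h4, _⟩ := hdown e ((hLm e).1 he).1 s h1 h2
      exact ⟨a, (hLm a).2 ⟨ha, by rw [h3]; exact ((hLm e).1 he).2⟩, h3, h4⟩)
    (by omega)
  have hRb := side_bound ((d : ℤ) - 2) m hj (by omega) (by omega) ρ g r R
    (fun e he => hr1 e ((hRm e).1 he).1) (fun e he => hrg e ((hRm e).1 he).1)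
    (fun e he => by have := hgd e ((hRm e).1 he).1; omega)
    (by
      intro e he s h1 h2
      obtain ⟨a, ha, h3, h4, _⟩ := hdown e ((hRm e).1 he).1 s h1 h2
      exact ⟨a, (hRm a).2 ⟨ha, by rw [h3]; exact ((hRm e).1 he).2⟩, h3, h4⟩)
    (by omega)
  have hφ := phi_final m L.card R.card hcards.symm
  have hφM := mul_le_mul_of_nonneg_left hφ (show (0 : ℤ) ≤ 2 * ((d : ℤ) - 2) by omega)
  rw [W2_split hv, ← hE]
  -- combine the single sums
  have hsingle : ∑ e ∈ E, (2 * ((d : ℤ) + 1 + sg d 1) + 2 * ((g (ρ e) : ℤ) - 1) *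
        ((g (ρ e) : ℤ) + 2) - 2 * ((d : ℤ) + 1) * ((g (ρ e) : ℤ) - r e))
      - 2 * m * ∑ e ∈ E, ((g (ρ e) : ℤ) - r e) - ∑ e ∈ E, (if 3 ≤ r e then (4 : ℤ) else 0)
      - ∑ e ∈ E, (2 * (g (ρ e) : ℤ) - 2 - 2 * ((g (ρ e) : ℤ) - r e))
      = 2 * m * ((d : ℤ) + 1 + sg d 1) - 2 * m
        + ∑ e ∈ E, (2 * (g (ρ e) : ℤ) ^ 2 - (2 * ((d : ℤ) - 2 + 2 + m) * ((g (ρ e) : ℤ) - r e)
        + (if 3 ≤ r e then 4 else 0))) := by
    have h1 : 2 * (m : ℤ) * ((d : ℤ) + 1 + sg d 1) - 2 * m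
        = ∑ e ∈ E, (2 * ((d : ℤ) + 1 + sg d 1) - 2) := by
      rw [sum_const, nsmul_eq_mul, ← hm]; ring
    rw [h1, Finset.mul_sum, ← Finset.sum_sub_distrib, ← Finset.sum_sub_distrib,
      ← Finset.sum_sub_distrib, ← Finset.sum_add_distrib]
    apply Finset.sum_congr rfl
    intro e _
    ring
  rw [hsplit (fun e => (2 * (g (ρ e) : ℤ) ^ 2 - (2 * ((d : ℤ) - 2 + 2 + m) *
    ((g (ρ e) : ℤ) - r e) + (if 3 ≤ r e then 4 else 0))))] at hsingle
  unfold exY at hLb hRb
  unfold UB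
  rw [hXsum, hgamsum] at hsumpair
  linarith

end Pool.Agent.H65.Wiener
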