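import Mathlib

namespace Pool.Agent.H65.Wiener

/-- The Wiener index: the sum of the distances over all unordered pairs of vertices (a pair
`s(u, u)` contributes `0`). -/
noncomputable def wiener {V : Type*} [Fintype V] (G : SimpleGraph V) : ℕ :=
  open Classical in
  ∑ e : Sym2 V, Sym2.lift ⟨fun u v => G.dist u v, fun _ _ => SimpleGraph.dist_comm⟩ e

/-- A leaf: a vertex with exactly one neighbour. -/
def IsLeaf {V : Type*} (T : SimpleGraph V) (x : V) : Prop := ∃! y, T.Adj x y

/-- A broom vertex: a vertex adjacent to at least one leaf. -/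
def IsBroomVertex {V : Type*} (T : SimpleGraph V) (x : V) : Prop := ∃ l, IsLeaf T l ∧ T.Adj x l

/-- A double broom: a tree with exactly two broom vertices. -/
def IsDoubleBroom {V : Type*} (T : SimpleGraph V) : Prop :=
  T.IsTree ∧ ∃ x y, x ≠ y ∧ ∀ z, IsBroomVertex T z ↔ (z = x ∨ z = y)

theorem two_wiener {V : Type*} [Fintype V] (G : SimpleGraph V) :
    2 * wiener G = ∑ u, ∑ v, G.dist u v := by
  classical
  have h1 : ∑ u, ∑ v, G.dist u v = ∑ p : V × V,
      Sym2.lift ⟨fun u v => G.dist u v, fun _ _ => SimpleGraph.dist_comm⟩ s(p.1, p.2) := by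
    rw [Fintype.sum_prod_type]
    rfl
  rw [h1, ← Finset.sum_fiberwise (s := (Finset.univ : Finset (V × V)))
    (g := fun p => s(p.1, p.2))]
  unfold wiener
  rw [Finset.mul_sum]
  have h0 : ∀ e : Sym2 V, 2 * Sym2.lift ⟨fun u v => G.dist u v, fun _ _ => SimpleGraph.dist_comm⟩ e
      = ∑ p ∈ (Finset.univ : Finset (V × V)).filter (fun p => s(p.1, p.2) = e),
        Sym2.lift ⟨fun u v => G.dist u v, fun _ _ => SimpleGraph.dist_comm⟩ s(p.1, p.2) := by
    intro e
    rw [Finset.sum_congr rfl (g := fun _ =>
      Sym2.lift ⟨fun u v => G.dist u v, fun _ _ => SimpleGraph.dist_comm⟩ e)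
      (fun p hp => by rw [(Finset.mem_filter.1 hp).2])]
    rw [Finset.sum_const, smul_eq_mul]
    induction e using Sym2.ind with
    | _ u v =>
      by_cases huv : u = v
      · subst huv
        simp
      · have hf : (Finset.univ : Finset (V × V)).filter (fun p => s(p.1, p.2) = s(u, v))
            = {(u, v), (v, u)} := by
          ext p
          rw [Finset.mem_filter, Finset.mem_insert, Finset.mem_singleton]
          constructor
          · rintro ⟨_, h⟩
            rw [Sym2.eq_iff] at h
            rcases h with ⟨h1, h2⟩ | ⟨h1, h2⟩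
            · left; exact Prod.ext h1 h2
            · right; exact Prod.ext h1 h2
          · rintro (rfl | rfl)
            · exact ⟨Finset.mem_univ _, rfl⟩
            · exact ⟨Finset.mem_univ _, Sym2.eq_swap⟩
        rw [hf, Finset.card_insert_of_notMem, Finset.card_singleton]
        rw [Finset.mem_singleton]
        intro h
        exact huv (congrArg Prod.fst h)
  convert Finset.sum_congr rfl (fun e _ => h0 e)

end Pool.Agent.H65.Wiener
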