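import Mathlib
import Pool.Agent.H65.Wiener.Bound
import Pool.Agent.H65.Wiener.Defs

namespace Pool.Agent.H65.Wiener

open Finset

theorem dist_of_metric {U : Type*} {B : SimpleGraph U} (D : U → U → ℕ) (h0 : ∀ u, D u u = 0)
    (h1 : ∀ u w x, B.Adj w x → D u x ≤ D u w + 1)
    (h2 : ∀ u w, u ≠ w → ∃ x, B.Adj w x ∧ D u x + 1 = D u w) :
    (∀ u w, B.Reachable u w ∧ B.dist u w = D u w) := by
  have hwalk : ∀ k u w, D u w = k → ∃ q : B.Walk u w, q.length = k := by
    intro k
    induction k with
    | zero =>
      intro u w h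
      by_cases huw : u = w
      · subst huw; exact ⟨SimpleGraph.Walk.nil, rfl⟩
      · obtain ⟨x, _, hx⟩ := h2 u w huw
        omega
    | succ k ih =>
      intro u w h
      have huw : u ≠ w := by
        rintro rfl
        rw [h0] at h; omega
      obtain ⟨x, hx1, hx2⟩ := h2 u w huw
      obtain ⟨q, hq⟩ := ih u x (by omega)
      exact ⟨q.concat hx1.symm, by rw [SimpleGraph.Walk.length_concat, hq]⟩
  intro u w
  obtain ⟨q, hq⟩ := hwalk _ u w rfl
  refine ⟨⟨q⟩, le_antisymm ?_ ?_⟩
  · rw [← hq]; exact SimpleGraph.dist_le q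
  · obtain ⟨q', hq'⟩ := (show B.Reachable u w from ⟨q⟩).exists_walk_length_eq_dist
    have h3 : ∀ i, i ≤ q'.length → D u (q'.getVert i) ≤ i := by
      intro i
      induction i with
      | zero => intro _; rw [q'.getVert_zero, h0]
      | succ i ih =>
        intro hi
        have h4 := ih (by omega)
        have h5 := h1 u _ _ (q'.adj_getVert_succ (i := i) (by omega))
        omega
    have h6 := h3 _ le_rfl
    rw [q'.getVert_length, hq'] at h6
    exact h6

def posN (d p i : ℕ) : ℕ := if i ≤ d then i else if i ≤ d + p then 1 else d - 1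

def hangN (d i : ℕ) : ℕ := if i ≤ d then 0 else 1

def DN (d p i j : ℕ) : ℕ := if i = j then 0 else
  hangN d i + hangN d j + ((posN d p i - posN d p j) + (posN d p j - posN d p i))

theorem DN_self (d p i : ℕ) : DN d p i i = 0 := by simp [DN]

theorem DN_comm (d p i j : ℕ) : DN d p i j = DN d p j i := by
  unfold DN
  split_ifs <;> omega

theorem DN_tri (d p i j k : ℕ) : DN d p i k ≤ DN d p i j + DN d p j k := by
  rcases eq_or_ne i j with rfl | hij
  · rw [DN_self]; omega
  rcases eq_or_ne j k with rfl | hjk
  · rw [DN_self]; omega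
  unfold DN
  rw [if_neg hij, if_neg hjk]
  generalize posN d p i = a
  generalize posN d p j = b
  generalize posN d p k = c
  generalize hangN d i = a'
  generalize hangN d j = b'
  generalize hangN d k = c'
  split_ifs <;> omega

theorem DN_step {d p n : ℕ} (hd : 3 ≤ d) (hn : d + 1 ≤ n) {i j : ℕ} (hi : i < n) (hj : j < n)
    (hij : i ≠ j) : ∃ x, x < n ∧ DN d p j x = 1 ∧ DN d p i x + 1 = DN d p i j := by
  by_cases hjd : j ≤ d
  · rcases lt_trichotomy (posN d p i) j with h | h | h
    · refine ⟨j - 1, by omega, ?_, ?_⟩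
      · unfold DN hangN posN
        split_ifs <;> omega
      · unfold DN hangN posN
        unfold posN at h
        split_ifs at h ⊢ <;> omega
    · refine ⟨i, hi, ?_, ?_⟩
      · unfold DN hangN posN
        unfold posN at h
        split_ifs at h ⊢ <;> omega
      · unfold DN hangN posN
        unfold posN at h
        split_ifs at h ⊢ <;> omega
    · have hjd' : j + 1 ≤ d := by
        unfold posN at h
        split_ifs at h <;> omega
      refine ⟨j + 1, by omega, ?_, ?_⟩
      · unfold DN hangN posN
        split_ifs <;> omega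
      · unfold DN hangN posN
        unfold posN at h
        split_ifs at h ⊢ <;> omega
  · have hp : posN d p j < d := by
      unfold posN; split_ifs <;> omega
    refine ⟨posN d p j, by omega, ?_, ?_⟩
    · unfold DN hangN posN
      split_ifs <;> omega
    · unfold DN hangN posN
      split_ifs <;> omega

/-- the double broom with `p` extra leaves on one side, on `Fin n` -/
def broomG (d p n : ℕ) : SimpleGraph (Fin n) where
  Adj u w := DN d p u w = 1
  symm := ⟨fun u w h => by
    have h' : DN d p u w = 1 := h
    show DN d p w u = 1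
    rw [DN_comm]; exact h'⟩
  loopless := ⟨fun u h => by
    have h' : DN d p u u = 1 := h
    rw [DN_self] at h'
    omega⟩

theorem broomG_adj {d p n : ℕ} {u w : Fin n} : (broomG d p n).Adj u w ↔ DN d p u w = 1 := Iff.rfl

theorem broomG_dist {d p n : ℕ} (hd : 3 ≤ d) (hn : d + 1 ≤ n) (u w : Fin n) :
    (broomG d p n).Reachable u w ∧ (broomG d p n).dist u w = DN d p u w := by
  apply dist_of_metric (fun u w : Fin n => DN d p u w)
  · intro u; exact DN_self _ _ _
  · intro u w x h
    rw [broomG_adj] at h
    have := DN_tri d p u w x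
    omega
  · intro u w huw
    obtain ⟨x, hx, h1, h2⟩ := DN_step (p := p) hd hn u.2 w.2 (fun h => huw (Fin.ext h))
    exact ⟨⟨x, hx⟩, h1, h2⟩

theorem broomG_conn {d p n : ℕ} (hd : 3 ≤ d) (hn : d + 1 ≤ n) : (broomG d p n).Connected := by
  haveI : Nonempty (Fin n) := ⟨⟨0, by omega⟩⟩
  exact ⟨fun u w => (broomG_dist hd hn u w).1⟩

theorem DN_le {d p n : ℕ} (hd : 3 ≤ d) (i j : ℕ) : DN d p i j ≤ d := by
  unfold DN hangN posN
  split_ifs <;> omega

theorem broomG_diam {d p n : ℕ} (hd : 3 ≤ d) (hn : d + 1 ≤ n) : (broomG d p n).diam = d := by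
  haveI : Nonempty (Fin n) := ⟨⟨0, by omega⟩⟩
  have hc := broomG_conn (p := p) hd hn
  apply le_antisymm
  · obtain ⟨u, w, h⟩ := (broomG d p n).exists_dist_eq_diam
    rw [← h, (broomG_dist hd hn u w).2]
    exact DN_le (n := n) hd _ _
  · have h1 := SimpleGraph.dist_le_diam (SimpleGraph.connected_iff_ediam_ne_top.1 hc)
      (u := (⟨0, by omega⟩ : Fin n)) (v := (⟨d, by omega⟩ : Fin n))
    rw [(broomG_dist hd hn _ _).2] at h1
    refine le_trans (le_of_eq ?_) h1
    show d = DN d p 0 d
    unfold DN hangN posN
    split_ifs <;> omega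

/-- the parent of a vertex -/
def parN (d p i : ℕ) : ℕ := if i ≤ d then i - 1 else posN d p i

theorem broomG_tree {d p n : ℕ} (hd : 3 ≤ d) (hn : d + 1 ≤ n) : (broomG d p n).IsTree := by
  classical
  have hc := broomG_conn (p := p) hd hn
  rw [SimpleGraph.isTree_iff_connected_and_card]
  refine ⟨hc, ?_⟩
  have h1 := hc.card_vert_le_card_edgeSet_add_one
  have h2 : Nat.card (broomG d p n).edgeSet + 1 ≤ Nat.card (Fin n) := by
    -- an injection from edges into the nonzero vertices
    have h3 : Set.ncard (broomG d p n).edgeSet ≤ n - 1 := by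
      obtain ⟨par, hpar⟩ : ∃ par : Fin n → Fin n, ∀ u, (par u : ℕ) = parN d p u := by
        refine ⟨fun u => ⟨parN d p u, ?_⟩, fun _ => rfl⟩
        have := u.2
        unfold parN posN
        split_ifs <;> omega
      have hsub : (broomG d p n).edgeSet ⊆
          ((((Finset.univ : Finset (Fin n)).filter (fun u : Fin n => 0 < u.val)).image
            (fun u => s(u, par u)) : Finset (Sym2 (Fin n))) : Set (Sym2 (Fin n))) := by
        intro e he
        induction e using Sym2.ind with
        | _ u w =>
          rw [SimpleGraph.mem_edgeSet, broomG_adj] at he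
          rw [Finset.coe_image]
          have hor : (parN d p u = w ∧ 0 < (u : ℕ)) ∨ (parN d p w = u ∧ 0 < (w : ℕ)) := by
            unfold DN hangN posN at he
            unfold parN posN
            split_ifs at he ⊢ <;> omega
          rcases hor with h | h
          · refine ⟨u, by simpa using h.2, ?_⟩
            have : par u = w := Fin.ext ((hpar u).trans h.1)
            simp only [this]
          · refine ⟨w, by simpa using h.2, ?_⟩
            have : par w = u := Fin.ext ((hpar w).trans h.1)
            simp only [this]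
            exact Sym2.eq_swap
      refine (Set.ncard_le_ncard hsub (Finset.finite_toSet _)).trans ?_
      rw [Set.ncard_coe_finset]
      refine Finset.card_image_le.trans ?_
      have h5 : (Finset.univ : Finset (Fin n)).filter (fun u : Fin n => 0 < u.val) ⊆
          Finset.univ.erase ⟨0, by omega⟩ := by
        intro u hu
        rw [Finset.mem_filter] at hu
        rw [Finset.mem_erase]
        refine ⟨?_, Finset.mem_univ _⟩
        rintro rfl
        exact absurd hu.2 (by simp)
      refine (Finset.card_le_card h5).trans ?_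
      rw [Finset.card_erase_of_mem (Finset.mem_univ _), Finset.card_univ, Fintype.card_fin]
    rw [Nat.card_fin]
    have h6 : Nat.card (broomG d p n).edgeSet = Set.ncard (broomG d p n).edgeSet := rfl
    rw [h6]
    omega
  omega

theorem broomG_doubleBroom {d p n : ℕ} (hd : 3 ≤ d) (hn : d + 1 ≤ n) :
    IsDoubleBroom (broomG d p n) := by
  refine ⟨broomG_tree hd hn, ⟨1, by omega⟩, ⟨d - 1, by omega⟩, ?_, ?_⟩
  · intro h
    have := congrArg Fin.val h
    simp only at this
    omega
  · intro z
    constructor
    · rintro ⟨l, hl, hzl⟩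
      by_contra hcon
      push Not at hcon
      have hz1 : (z : ℕ) ≠ 1 := fun h => hcon.1 (Fin.ext h)
      have hz2 : (z : ℕ) ≠ d - 1 := fun h => hcon.2 (Fin.ext h)
      rw [broomG_adj] at hzl
      by_cases hl' : 1 ≤ (l : ℕ) ∧ (l : ℕ) + 1 ≤ d
      · -- two neighbours
        obtain ⟨y, _, hy⟩ := hl
        have h1 := hy ⟨l - 1, by omega⟩ (by
          show DN d p l (l - 1) = 1
          unfold DN hangN posN
          split_ifs <;> omega)
        have h2 := hy ⟨l + 1, by omega⟩ (by
          show DN d p l (l + 1) = 1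
          unfold DN hangN posN
          split_ifs <;> omega)
        have h3 := congrArg Fin.val (h1.trans h2.symm)
        simp only at h3
        omega
      · unfold DN hangN posN at hzl
        split_ifs at hzl <;> omega
    · have key : ∀ (x l : Fin n), (x : ℕ) = 1 ∧ (l : ℕ) = 0 ∨ (x : ℕ) = d - 1 ∧ (l : ℕ) = d →
          IsBroomVertex (broomG d p n) x := by
        intro x l h
        refine ⟨l, ⟨x, ?_, ?_⟩, ?_⟩
        · show DN d p l x = 1
          unfold DN hangN posN
          split_ifs <;> omega
        · intro y hy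
          have hy' : DN d p l y = 1 := hy
          apply Fin.ext
          unfold DN hangN posN at hy'
          split_ifs at hy' <;> omega
        · show DN d p x l = 1
          unfold DN hangN posN
          split_ifs <;> omega
      rintro (rfl | rfl)
      · exact key _ ⟨0, by omega⟩ (Or.inl ⟨rfl, rfl⟩)
      · exact key _ ⟨d, by omega⟩ (Or.inr ⟨rfl, rfl⟩)

theorem sum_extra (p q : ℕ) (d : ℤ) :
    ∑ i ∈ range (p + q), ∑ j ∈ range (p + q),
      (if i = j then (0 : ℤ) else if (i < p ↔ j < p) then 2 else d)
      = 2 * p * (p - 1) + 2 * q * (q - 1) + 2 * p * q * d := by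
  have h1 : ∀ i ∈ range (p + q), ∑ j ∈ range (p + q),
      (if i = j then (0 : ℤ) else if (i < p ↔ j < p) then 2 else d)
      = if i < p then 2 * ((p : ℤ) - 1) + q * d else 2 * ((q : ℤ) - 1) + p * d := by
    intro i hi
    have h2 : ∑ j ∈ range (p + q), (if i = j then (0 : ℤ) else if (i < p ↔ j < p) then 2 else d)
        = ∑ j ∈ range (p + q), (if (i < p ↔ j < p) then 2 else d) - 2 := by
      have h3 : ∀ j ∈ range (p + q), (if i = j then (0 : ℤ) else if (i < p ↔ j < p) then 2 else d)
          = (if (i < p ↔ j < p) then 2 else d) - (if i = j then 2 else 0) := by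
        intro j _
        by_cases h : i = j
        · subst h; simp
        · rw [if_neg h, if_neg h]; ring
      rw [Finset.sum_congr rfl h3, Finset.sum_sub_distrib, Finset.sum_ite_eq, if_pos hi]
    rw [h2, Finset.sum_range_add]
    by_cases hip : i < p
    · rw [if_pos hip]
      have h4 : ∑ x ∈ range p, (if (i < p ↔ x < p) then 2 else d) = 2 * p := by
        rw [Finset.sum_congr rfl (g := fun _ => (2 : ℤ))]
        · rw [sum_const, card_range, nsmul_eq_mul]; ring
        · intro x hx
          rw [mem_range] at hx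
          rw [if_pos (iff_of_true hip hx)]
      have h5 : ∑ x ∈ range q, (if (i < p ↔ p + x < p) then 2 else d) = q * d := by
        rw [Finset.sum_congr rfl (g := fun _ => d)]
        · rw [sum_const, card_range, nsmul_eq_mul]
        · intro x hx
          rw [if_neg (fun h => by have := h.1 hip; omega)]
      rw [h4, h5]; ring
    · rw [if_neg hip]
      have h4 : ∑ x ∈ range p, (if (i < p ↔ x < p) then 2 else d) = p * d := by
        rw [Finset.sum_congr rfl (g := fun _ => d)]
        · rw [sum_const, card_range, nsmul_eq_mul]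
        · intro x hx
          rw [mem_range] at hx
          rw [if_neg (fun h => hip (h.2 hx))]
      have h5 : ∑ x ∈ range q, (if (i < p ↔ p + x < p) then 2 else d) = 2 * q := by
        rw [Finset.sum_congr rfl (g := fun _ => (2 : ℤ))]
        · rw [sum_const, card_range, nsmul_eq_mul]; ring
        · intro x hx
          rw [if_pos (iff_of_false hip (by omega))]
      rw [h4, h5]; ring
  rw [Finset.sum_congr rfl h1, Finset.sum_range_add]
  have h6 : ∑ x ∈ range p, (if x < p then 2 * ((p : ℤ) - 1) + q * d else 2 * ((q : ℤ) - 1) + p * d)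
      = p * (2 * ((p : ℤ) - 1) + q * d) := by
    rw [Finset.sum_congr rfl (g := fun _ => 2 * ((p : ℤ) - 1) + q * d)]
    · rw [sum_const, card_range, nsmul_eq_mul]
    · intro x hx
      rw [mem_range] at hx
      rw [if_pos hx]
  have h7 : ∑ x ∈ range q, (if p + x < p then 2 * ((p : ℤ) - 1) + q * d
      else 2 * ((q : ℤ) - 1) + p * d) = q * (2 * ((q : ℤ) - 1) + p * d) := by
    rw [Finset.sum_congr rfl (g := fun _ => 2 * ((q : ℤ) - 1) + p * d)]
    · rw [sum_const, card_range, nsmul_eq_mul]
    · intro x hx
      rw [if_neg (by omega)]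
  rw [h6, h7]; ring

theorem broomG_W {d m : ℕ} (hd : 3 ≤ d) :
    ∑ x, ∑ y, ((broomG d (m / 2) (d + 1 + m)).dist x y : ℤ) = UB d m := by
  obtain ⟨p, hp⟩ : ∃ p, p = m / 2 := ⟨_, rfl⟩
  obtain ⟨q, hq⟩ : ∃ q, q = m - m / 2 := ⟨_, rfl⟩
  have hpq : p + q = m := by omega
  rw [← hp]
  have h1 : ∑ x, ∑ y, ((broomG d p (d + 1 + m)).dist x y : ℤ)
      = ∑ i ∈ range (d + 1 + m), ∑ j ∈ range (d + 1 + m), (DN d p i j : ℤ) := by
    rw [Finset.sum_range]
    apply Finset.sum_congr rfl
    intro x _
    rw [Finset.sum_range]
    apply Finset.sum_congr rfl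
    intro y _
    rw [(broomG_dist hd (by omega) x y).2]
  rw [h1, Finset.sum_range_add]
  simp_rw [Finset.sum_range_add _ (d + 1) m]
  rw [Finset.sum_add_distrib, Finset.sum_add_distrib]
  have e1 : ∑ i ∈ range (d + 1), ∑ j ∈ range (d + 1), (DN d p i j : ℤ) = sp d := by
    unfold sp
    apply Finset.sum_congr rfl
    intro i hi
    apply Finset.sum_congr rfl
    intro j hj
    rw [mem_range] at hi hj
    unfold DN hangN posN
    rw [if_pos (show i ≤ d by omega), if_pos (show j ≤ d by omega),
      if_pos (show i ≤ d by omega), if_pos (show j ≤ d by omega)]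
    rcases lt_trichotomy i j with h | h | h
    · rw [if_neg h.ne, abs_of_neg (by omega)]; omega
    · subst h; simp
    · rw [if_neg h.ne', abs_of_pos (by omega)]; omega
  have hsg : ∀ c, c = 1 ∨ c = d - 1 → sg d c = sg d 1 := by
    intro c hc
    rcases hc with rfl | rfl
    · rfl
    · have a1 := sg_eq d (d - 1) (by omega)
      have a2 := sg_eq d 1 (by omega)
      rw [Nat.cast_sub (by omega)] at a1
      push_cast at a1 a2
      nlinarith
  have e2 : ∀ j ∈ range m, ∑ i ∈ range (d + 1), (DN d p i (d + 1 + j) : ℤ)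
      = (d + 1) + sg d 1 := by
    intro j hj
    obtain ⟨c, hc⟩ : ∃ c, c = posN d p (d + 1 + j) := ⟨_, rfl⟩
    have hc' : c = 1 ∨ c = d - 1 := by
      rw [hc]; unfold posN; split_ifs <;> omega
    rw [← hsg c hc']
    have h2 : ∀ i ∈ range (d + 1), (DN d p i (d + 1 + j) : ℤ) = 1 + |(c : ℤ) - i| := by
      intro i hi
      rw [mem_range] at hi
      unfold DN
      rw [← hc]
      unfold hangN posN
      rw [if_neg (by omega), if_pos (show i ≤ d by omega), if_neg (by omega),
        if_pos (show i ≤ d by omega)]
      rcases le_total i c with h | h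
      · rw [abs_of_nonneg (by omega)]; omega
      · rw [abs_of_nonpos (by omega)]; omega
    rw [Finset.sum_congr rfl h2, Finset.sum_add_distrib, sum_const, card_range, nsmul_eq_mul]
    unfold sg
    push_cast; ring
  have e3 : ∑ i ∈ range (d + 1), ∑ j ∈ range m, (DN d p i (d + 1 + j) : ℤ)
      = m * ((d + 1) + sg d 1) := by
    rw [Finset.sum_comm, Finset.sum_congr rfl e2, sum_const, card_range, nsmul_eq_mul]
  have e4 : ∑ j ∈ range m, ∑ i ∈ range (d + 1), (DN d p (d + 1 + j) i : ℤ)
      = m * ((d + 1) + sg d 1) := by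
    rw [← e3, Finset.sum_comm]
    apply Finset.sum_congr rfl
    intro i _
    apply Finset.sum_congr rfl
    intro j _
    rw [DN_comm]
  have e5 : ∑ i ∈ range m, ∑ j ∈ range m, (DN d p (d + 1 + i) (d + 1 + j) : ℤ)
      = 2 * p * (p - 1) + 2 * q * (q - 1) + 2 * p * q * d := by
    rw [← sum_extra, hpq]
    apply Finset.sum_congr rfl
    intro i _
    apply Finset.sum_congr rfl
    intro j _
    by_cases h : i = j
    · rw [if_pos h, h, DN_self]; rfl
    · rw [if_neg h]
      have hh : ∀ i, hangN d (d + 1 + i) = 1 := by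
        intro i; unfold hangN; rw [if_neg (by omega)]
      have hpos : ∀ i, posN d p (d + 1 + i) = if i < p then 1 else d - 1 := by
        intro i
        unfold posN
        rw [if_neg (by omega)]
        by_cases hi : i < p
        · rw [if_pos (by omega), if_pos hi]
        · rw [if_neg (by omega), if_neg hi]
      unfold DN
      rw [if_neg (by omega), hh, hh, hpos, hpos]
      by_cases h1 : i < p <;> by_cases h2 : j < p
      · rw [if_pos h1, if_pos h2, if_pos (iff_of_true h1 h2)]; simp
      · rw [if_pos h1, if_neg h2, if_neg (fun h => h2 (h.1 h1))]; omega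
      · rw [if_neg h1, if_pos h2, if_neg (fun h => h1 (h.2 h2))]; omega
      · rw [if_neg h1, if_neg h2, if_pos (iff_of_false h1 h2)]; simp
  rw [e1, e3, e4, e5]
  unfold UB
  have hp2 : (m : ℤ) / 2 = p := by rw [hp]; omega
  have hq2 : ((m : ℤ) + 1) / 2 = q := by rw [hq]; omega
  have hm' : (m : ℤ) = p + q := by rw [← hpq]; push_cast; ring
  rw [hp2, hq2, hm']
  ring

end Pool.Agent.H65.Wiener
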