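import Mathlib
import Pool.Agent.H65.Wiener.Bound

namespace Pool.Agent.H65.Wiener

open Finset

/-- twice the sum of the distances on the path from position `c` -/
def s2 (d c : ℕ) : ℤ := (c : ℤ) * (c + 1) + ((d : ℤ) - c) * (d - c + 1)

/-- bound for twice the sum of the distances from the `s`-th extra vertex to the path -/
def tau (d k l i0 j0 t s : ℕ) : ℤ :=
  if s < i0 then
    (if s ≤ t then min (2 * (d + 1) * ((i0 : ℤ) - s) + s2 d k) (2 * (d + 1) * ((j0 : ℤ) - s) + s2 d l)
      else 2 * (d + 1) * ((i0 : ℤ) - s) + s2 d k)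
  else 2 * (d + 1) * ((j0 : ℤ) - (s - i0 + t + 1 : ℕ)) + s2 d l

/-- bound for the distance between two extra vertices -/
def del (i0 t s s' : ℕ) : ℤ :=
  if s < i0 then
    (if s' < i0 then |(s : ℤ) - s'| else |(s : ℤ) - t| + (s' - i0 + 1 : ℕ))
  else
    (if s' < i0 then |(s' : ℤ) - t| + (s - i0 + 1 : ℕ) else |(s : ℤ) - s'|)

def excOK (d k l i0 j0 t : ℕ) : Prop :=
  ∑ s ∈ range 5, tau d k l i0 j0 t s + ∑ s ∈ range 5, ∑ s' ∈ range 5, del i0 t s s' ≤
    5 * (2 * ((d : ℤ) + 1) + 2 + ((d : ℤ) - 1) * d) + 40 + 12 * ((d : ℤ) - 2)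

instance (d k l i0 j0 t : ℕ) : Decidable (excOK d k l i0 j0 t) := by
  unfold excOK; infer_instance

def excCheck : Bool :=
  [9, 10].all fun d => (List.range 6).all fun k => (List.range 11).all fun l =>
    (List.range 6).all fun i0 => (List.range 6).all fun j0 => (List.range 6).all fun t =>
    decide (k + 1 ≤ i0 → l ≤ d → d - d / 2 ≤ l → d - l + 1 ≤ j0 → t < i0 → t < j0 →
      i0 + j0 = 6 + t → (l - k) + 2 * t ≤ i0 + j0 → excOK d k l i0 j0 t)

theorem excCheck_true : excCheck = true := by decide +kernel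

theorem exc_spec {d k l i0 j0 t : ℕ} (hd : d = 9 ∨ d = 10) (h1 : k + 1 ≤ i0) (h2 : l ≤ d)
    (h3 : d - d / 2 ≤ l) (h4 : d - l + 1 ≤ j0) (h5 : t < i0) (h6 : t < j0) (h7 : i0 + j0 = 6 + t)
    (h8 : (l - k) + 2 * t ≤ i0 + j0) : excOK d k l i0 j0 t := by
  have h0 := excCheck_true
  unfold excCheck at h0
  rw [List.all_eq_true] at h0
  have a1 := h0 d (by rcases hd with rfl | rfl <;> simp)
  rw [List.all_eq_true] at a1
  have a2 := a1 k (List.mem_range.2 (by omega))
  rw [List.all_eq_true] at a2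
  have a3 := a2 l (List.mem_range.2 (by omega))
  rw [List.all_eq_true] at a3
  have a4 := a3 i0 (List.mem_range.2 (by omega))
  rw [List.all_eq_true] at a4
  have a5 := a4 j0 (List.mem_range.2 (by omega))
  rw [List.all_eq_true] at a5
  have a6 := a5 t (List.mem_range.2 (by omega))
  exact of_decide_eq_true a6 h1 h2 h3 h4 h5 h6 h7 h8

variable {V : Type*} [Fintype V] {G : SimpleGraph V}

theorem bad_bound (hG : G.Connected) {v : ℕ → V} {d : ℕ} (hd : d = 9 ∨ d = 10) (hv : Geo G v d)
    (hm : (offP v d).card = 5) {a b : ℕ → V} {i0 j0 k l t : ℕ}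
    (h : Bad G v d a b i0 j0 k l t) :
    ∑ x, ∑ y, (G.dist x y : ℤ) ≤ UB d (offP v d).card := by
  classical
  have hti := h.hti
  have htj := h.htj
  have hi0 := h.hi0
  have hj0 := h.hj0
  have hkl := h.hkl
  have hld := h.hld
  have hl := h.hl
  have hkd := h.hkd
  -- the enumeration
  have hinj := h.inj
  have hsub : (range (i0 + (j0 - 1 - t))).image (Bad.enum a b i0 t) ⊆ offP v d := by
    intro x hx
    rw [mem_image] at hx
    obtain ⟨s, hs, rfl⟩ := hx
    rw [mem_range] at hs
    rw [mem_offP]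
    exact h.notOnP hs
  have hcard := card_le_card hsub
  rw [card_image_of_injOn hinj, card_range, hm] at hcard
  have hN : i0 + (j0 - 1 - t) = 5 := by
    rcases hd with rfl | rfl <;> omega
  rw [hN] at hsub hinj
  have himg : (range 5).image (Bad.enum a b i0 t) = offP v d := by
    apply Finset.eq_of_subset_of_card_le hsub
    rw [card_image_of_injOn hinj, card_range, hm]
  have hsum : ∀ F : V → ℤ, ∑ e ∈ offP v d, F e = ∑ s ∈ range 5, F (Bad.enum a b i0 t s) := by
    intro F
    rw [← himg, Finset.sum_image hinj]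
  have hOK := exc_spec hd hi0 hl hld hj0 hti htj (by omega) hkl
  -- distances
  have hga : ∀ i j, i ≤ i0 → j ≤ i0 → (G.dist (a i) (a j) : ℤ) = |(i : ℤ) - j| := by
    intro i j hi hj
    rcases le_total i j with hh | hh
    · rw [h.hga i j hh hj, abs_of_nonpos (by omega)]; omega
    · rw [G.dist_comm, h.hga j i hh hi, abs_of_nonneg (by omega)]; omega
  have hgb : ∀ i j, i ≤ j0 → j ≤ j0 → (G.dist (b i) (b j) : ℤ) = |(i : ℤ) - j| := by
    intro i j hi hj
    rcases le_total i j with hh | hh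
    · rw [h.hgb i j hh hj, abs_of_nonpos (by omega)]; omega
    · rw [G.dist_comm, h.hgb j i hh hi, abs_of_nonneg (by omega)]; omega
  have hak : ∀ s, s ≤ i0 → G.dist (a s) (v k) ≤ i0 - s := by
    intro s hs
    rw [← h.ha, h.hga s i0 hs le_rfl]
  have hbl : ∀ s, s ≤ j0 → G.dist (b s) (v l) ≤ j0 - s := by
    intro s hs
    rw [← h.hb, h.hgb s j0 hs le_rfl]
  have hal : ∀ s, s ≤ t → G.dist (a s) (v l) ≤ j0 - s := by
    intro s hs
    have h1 := hG.dist_triangle (u := a s) (v := a t) (w := v l)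
    have h2 := h.hga s t hs hti.le
    have h3 := hbl t htj.le
    rw [← h.hab] at h3
    omega
  have hTs : ∀ s ∈ range 5, 2 * ∑ j ∈ range (d + 1), (G.dist (Bad.enum a b i0 t s) (v j) : ℤ) ≤
      tau d k l i0 j0 t s := by
    intro s hs
    rw [mem_range] at hs
    have hk' : k ≤ d := by omega
    have e1 := sg_eq d k hk'
    have e2 := sg_eq d l hl
    unfold tau Bad.enum
    split_ifs with h1 h2
    · apply le_min
      · have := T_bound hG hv (a s) (i0 - s) k hk' (hak s h1.le)
        unfold s2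
        rw [Nat.cast_sub h1.le] at this
        linarith
      · have := T_bound hG hv (a s) (j0 - s) l hl (hal s h2)
        unfold s2
        rw [Nat.cast_sub (by omega)] at this
        linarith
    · have := T_bound hG hv (a s) (i0 - s) k hk' (hak s h1.le)
      unfold s2
      rw [Nat.cast_sub h1.le] at this
      linarith
    · have := T_bound hG hv (b (s - i0 + t + 1)) (j0 - (s - i0 + t + 1)) l hl (hbl _ (by omega))
      unfold s2
      rw [Nat.cast_sub (by omega)] at this
      linarith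
  have habd : ∀ s q, s < i0 → t < q → q < j0 →
      (G.dist (a s) (b q) : ℤ) ≤ |(s : ℤ) - t| + ((q : ℤ) - t) := by
    intro s q hs hq hq'
    have h1 := hG.dist_triangle (u := a s) (v := a t) (w := b q)
    have h2 := hga s t hs.le hti.le
    have h3 := hgb t q htj.le hq'.le
    rw [← h.hab, abs_of_nonpos (by omega)] at h3
    rw [← h2]
    omega
  have hDs : ∀ s ∈ range 5, ∀ s' ∈ range 5,
      (G.dist (Bad.enum a b i0 t s) (Bad.enum a b i0 t s') : ℤ) ≤ del i0 t s s' := by
    intro s hs s' hs'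
    rw [mem_range] at hs hs'
    unfold del Bad.enum
    split_ifs with h1 h2 h2
    · exact (hga s s' h1.le h2.le).le
    · refine (habd s (s' - i0 + t + 1) h1 (by omega) (by omega)).trans (le_of_eq ?_)
      push_cast; ring
    · rw [G.dist_comm]
      refine (habd s' (s - i0 + t + 1) h2 (by omega) (by omega)).trans (le_of_eq ?_)
      push_cast; ring
    · rw [hgb _ _ (by omega) (by omega)]
      apply le_of_eq
      congr 1
      omega
  rw [W2_split hv, hsum, hsum]
  have hA : ∑ s ∈ range 5, ∑ e' ∈ offP v d, (G.dist (Bad.enum a b i0 t s) e' : ℤ)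
      ≤ ∑ s ∈ range 5, ∑ s' ∈ range 5, del i0 t s s' := by
    apply Finset.sum_le_sum
    intro s hs
    rw [hsum]
    exact Finset.sum_le_sum (fun s' hs' => hDs s hs s' hs')
  have hB : 2 * ∑ s ∈ range 5, ∑ j ∈ range (d + 1), (G.dist (Bad.enum a b i0 t s) (v j) : ℤ)
      ≤ ∑ s ∈ range 5, tau d k l i0 j0 t s := by
    rw [Finset.mul_sum]
    exact Finset.sum_le_sum hTs
  unfold excOK at hOK
  unfold UB
  rw [hm]
  have e1 := sg_eq d 1 (by omega)
  push_cast at e1 ⊢
  norm_num
  linarith

end Pool.Agent.H65.Wiener
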